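import Pool.Agent.W_MP_b5ab1b_al_h72.Algebra

/-! Wreath products have compatible sections. -/

namespace Pool.W_MP_b5ab1b_al

variable {X D G : Type*} [Group D] [Group G] [MulAction G X]

theorem arrow_at (g : G) (F : X → D) (x : X) :
    ((mulAutArrow : G →* MulAut (X → D)) g) F x = F (g⁻¹ • x) := rfl

theorem wreath_compatible (o : X) : CompatibleSection (offOrbit D G o) (lamp D G o)
    {γ : (X → D) ⋊[mulAutArrow] G | γ.left (γ.right • o) = 1} := by
  classical
  constructor
  · rfl
  · rintro s hs t ht ⟨d, hd⟩
    simp only [Set.mem_ofPred_eq] at hs ht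
    have h1 : t = s * (SemidirectProduct.inl (Pi.mulSingle o d)) := by
      have : (SemidirectProduct.inl (Pi.mulSingle o d) : (X → D) ⋊[mulAutArrow] G) = s⁻¹ * t := hd
      rw [this, mul_inv_cancel_left]
    have h2 : t.right = s.right := by
      rw [h1, SemidirectProduct.mul_right, SemidirectProduct.right_inl, mul_one]
    have h3 : t.left (s.right • o) = d := by
      rw [h1, SemidirectProduct.mul_left, Pi.mul_apply, hs, one_mul, arrow_at,
        inv_smul_smul, SemidirectProduct.left_inl, Pi.mulSingle_eq_same]
    rw [h2, h3] at ht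
    rw [h1, ht, Pi.mulSingle_one, map_one, mul_one]
  · intro g hg s hs
    simp only [Set.mem_ofPred_eq] at hs ⊢
    rw [SemidirectProduct.mul_left, SemidirectProduct.mul_right, Pi.mul_apply, hg, one_mul,
      arrow_at, mul_smul, inv_smul_smul]
    exact hs
  · intro s hs
    simp only [Set.mem_ofPred_eq] at hs
    by_cases ho : s.right • o = o
    · right
      rintro _ ⟨d, rfl⟩
      simp only [MonoidHom.comp_apply, MonoidHom.mulSingle_apply]
      apply SemidirectProduct.ext
      · rw [SemidirectProduct.mul_left, SemidirectProduct.mul_left, SemidirectProduct.left_inl,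
          SemidirectProduct.right_inl, map_one, MulAut.one_apply]
        funext x
        rw [Pi.mul_apply, Pi.mul_apply, arrow_at]
        by_cases hx : x = o
        · subst hx
          have h1 : s.right⁻¹ • x = x := by
            rw [inv_smul_eq_iff]; exact ho.symm
          rw [ho] at hs
          rw [h1, hs, Pi.mulSingle_eq_same, one_mul, mul_one]
        · have h1 : s.right⁻¹ • x ≠ o := by
            intro h
            apply hx
            rw [inv_smul_eq_iff] at h
            rw [h, ho]
          rw [Pi.mulSingle_eq_of_ne hx, Pi.mulSingle_eq_of_ne h1, one_mul, mul_one]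
      · rw [SemidirectProduct.mul_right, SemidirectProduct.mul_right, SemidirectProduct.right_inl,
          one_mul, mul_one]
    · left
      rintro _ ⟨d, rfl⟩
      simp only [MonoidHom.comp_apply, MonoidHom.mulSingle_apply, Set.mem_ofPred_eq]
      rw [SemidirectProduct.mul_left, SemidirectProduct.mul_right, SemidirectProduct.left_inl,
          SemidirectProduct.right_inl, map_one, MulAut.one_apply, one_mul, Pi.mul_apply,
          Pi.mulSingle_eq_of_ne ho, one_mul]
      exact hs

/-- wreath products of torsion-free groups are torsion-free -/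
theorem wreath_torsionFree (hD : ∀ d : D, d ≠ 1 → ¬ IsOfFinOrder d)
    (hG : ∀ g : G, g ≠ 1 → ¬ IsOfFinOrder g) (γ : (X → D) ⋊[mulAutArrow] G) (hγ : γ ≠ 1) :
    ¬ IsOfFinOrder γ := by
  intro hfin
  obtain ⟨n, hn, hpow⟩ := isOfFinOrder_iff_pow_eq_one.1 hfin
  have h1 : γ.right ^ n = 1 := by
    have := congrArg (SemidirectProduct.rightHom : (X → D) ⋊[mulAutArrow] G →* G) hpow
    rw [map_pow, map_one] at this
    exact this
  have h2 : γ.right = 1 := by
    by_contra hne
    exact hG _ hne (isOfFinOrder_iff_pow_eq_one.2 ⟨n, hn, h1⟩)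
  have h3 : γ = SemidirectProduct.inl γ.left := by
    apply SemidirectProduct.ext
    · rw [SemidirectProduct.left_inl]
    · rw [SemidirectProduct.right_inl, h2]
  have h4 : γ.left ^ n = 1 := by
    have h5 : (SemidirectProduct.inl (γ.left ^ n) : (X → D) ⋊[mulAutArrow] G) = 1 := by
      rw [map_pow, ← h3, hpow]
    have h6 := congrArg SemidirectProduct.left h5
    rw [SemidirectProduct.left_inl] at h6
    exact h6
  apply hγ
  rw [h3]
  have h7 : γ.left = 1 := by
    funext x
    by_contra hne
    apply hD _ hne
    refine isOfFinOrder_iff_pow_eq_one.2 ⟨n, hn, ?_⟩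
    have := congrFun h4 x
    rwa [Pi.pow_apply] at this
  rw [h7, map_one]

end Pool.W_MP_b5ab1b_al
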