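import Mathlib

/-! Spectral measures over free abelian groups are absolutely continuous. -/

namespace Pool.W_MP_b5ab1b_al

open MeasureTheory Topology

theorem null_preimage {p : ℝ → ℝ} (hp : AnalyticOnNhd ℝ p Set.univ) {x0 : ℝ} (hne : deriv p x0 ≠ 0)
    {N : Set ℝ} (hN : volume N = 0) : volume (p ⁻¹' N) = 0 := by
  have hd : AnalyticOnNhd ℝ (deriv p) Set.univ := hp.deriv
  have hcod := hd.preimage_zero_mem_codiscrete hne
  have hcrit : volume {x | deriv p x = 0} = 0 := by
    have h1 : (deriv p ⁻¹' {0}ᶜ) ∈ ae ((volume : Measure ℝ).restrict Set.univ) :=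
      ae_restrict_le_codiscreteWithin MeasurableSet.univ hcod
    rw [Measure.restrict_univ, mem_ae_iff] at h1
    have h2 : {x | deriv p x = 0} = (deriv p ⁻¹' {0}ᶜ)ᶜ := by
      ext x; simp
    rw [h2]; exact h1
  have hloc : volume {x | p x ∈ N ∧ deriv p x ≠ 0} = 0 := by
    apply measure_null_of_locally_null
    intro x hx
    obtain ⟨hxN, hx0⟩ := hx
    have hs : HasStrictDerivAt p (deriv p x) x := (hp x trivial).hasStrictDerivAt
    set g := hs.localInverse p (deriv p x) x hx0 with hgdef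
    have hg : HasStrictDerivAt g (deriv p x)⁻¹ (p x) := hs.to_localInverse hx0
    obtain ⟨K, V, hV, hK⟩ := hg.hasStrictFDerivAt.exists_lipschitzOnWith
    have hleft : ∀ᶠ y in 𝓝 x, g (p y) = y := hs.eventually_left_inverse hx0
    have hcont : ∀ᶠ y in 𝓝 x, p y ∈ V := (hp x trivial).continuousAt.eventually hV
    refine ⟨{y | p y ∈ N ∧ deriv p y ≠ 0} ∩ {y | g (p y) = y ∧ p y ∈ V}, ?_, ?_⟩
    · exact Filter.inter_mem self_mem_nhdsWithin
        (mem_nhdsWithin_of_mem_nhds (hleft.and hcont))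
    · have h3 : volume (g '' (N ∩ V)) = 0 := by
        rw [← hausdorffMeasure_real]
        have h4 := (hK.mono (Set.inter_subset_right : N ∩ V ⊆ V)).hausdorffMeasure_image_le
          (zero_le_one)
        have h5 : Measure.hausdorffMeasure (1:ℝ) (N ∩ V) = 0 := by
          rw [hausdorffMeasure_real]
          exact measure_mono_null Set.inter_subset_left hN
        rw [h5, mul_zero] at h4
        exact le_antisymm h4 (zero_le)
      refine measure_mono_null ?_ h3
      rintro y ⟨⟨hyN, _⟩, hy1, hy2⟩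
      exact ⟨p y, ⟨hyN, hy2⟩, hy1⟩
  have hsub : p ⁻¹' N ⊆ {x | p x ∈ N ∧ deriv p x ≠ 0} ∪ {x | deriv p x = 0} := by
    intro x hx
    by_cases h : deriv p x = 0
    · right; exact h
    · left; exact ⟨hx, h⟩
  exact measure_mono_null hsub (measure_union_null hloc hcrit)

variable {ι : Type*} [Fintype ι]

/-- integral linear form -/
noncomputable def lin (k : ι → ℤ) (x : ι → ℝ) : ℝ := ∑ i, (k i : ℝ) * x i

theorem lin_add_left (k l : ι → ℤ) (x : ι → ℝ) : lin (k + l) x = lin k x + lin l x := by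
  unfold lin
  rw [← Finset.sum_add_distrib]
  apply Finset.sum_congr rfl
  intro i _
  rw [Pi.add_apply, Int.cast_add, add_mul]

theorem lin_neg_left (k : ι → ℤ) (x : ι → ℝ) : lin (-k) x = - lin k x := by
  unfold lin
  rw [← Finset.sum_neg_distrib]
  apply Finset.sum_congr rfl
  intro i _
  rw [Pi.neg_apply, Int.cast_neg, neg_mul]

theorem lin_zero_left (x : ι → ℝ) : lin (0 : ι → ℤ) x = 0 := by
  simp [lin]

theorem lin_line (k : ι → ℤ) (x u : ι → ℝ) (t : ℝ) : lin k (x + t • u) = lin k x + t * lin k u := by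
  unfold lin
  rw [Finset.mul_sum, ← Finset.sum_add_distrib]
  apply Finset.sum_congr rfl
  intro i _
  rw [Pi.add_apply, Pi.smul_apply, smul_eq_mul]
  ring

/-- characters of the torus -/
noncomputable def ch (x : ι → ℝ) : Multiplicative (ι → ℤ) →* ℂ where
  toFun k := Complex.exp (2 * Real.pi * Complex.I * (lin k.toAdd x : ℝ))
  map_one' := by
    rw [toAdd_one, lin_zero_left]
    simp
  map_mul' := by
    intro k l
    rw [toAdd_mul, lin_add_left, ← Complex.exp_add]
    congr 1
    push_cast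
    ring

theorem ch_apply (x : ι → ℝ) (k : Multiplicative (ι → ℤ)) :
    ch x k = Complex.exp (2 * Real.pi * Complex.I * (lin k.toAdd x : ℝ)) := rfl

/-- evaluation of a Laurent polynomial -/
noncomputable def ev (x : ι → ℝ) : MonoidAlgebra ℝ (Multiplicative (ι → ℤ)) →ₐ[ℝ] ℂ :=
  MonoidAlgebra.lift ℝ ℂ (Multiplicative (ι → ℤ)) (ch x)

theorem ev_apply (x : ι → ℝ) (F : MonoidAlgebra ℝ (Multiplicative (ι → ℤ))) :
    ev x F = ∑ a ∈ F.coeff.support, (F.coeff a : ℂ) * ch x a := by
  unfold ev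
  rw [MonoidAlgebra.lift_apply, Finsupp.sum]
  apply Finset.sum_congr rfl
  intro a _
  rw [Complex.real_smul]

theorem continuous_lin (k : ι → ℤ) : Continuous (lin k) := by
  unfold lin
  fun_prop

theorem continuous_ch (k : Multiplicative (ι → ℤ)) : Continuous (fun x => ch x k) := by
  simp only [ch_apply]
  have := continuous_lin (k.toAdd : ι → ℤ)
  fun_prop

theorem norm_ch (x : ι → ℝ) (k : Multiplicative (ι → ℤ)) : ‖ch x k‖ = 1 := by
  rw [ch_apply]
  have : (2 * (Real.pi : ℂ) * Complex.I * (lin k.toAdd x : ℝ))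
      = ((2 * Real.pi * lin k.toAdd x : ℝ) : ℂ) * Complex.I := by
    push_cast; ring
  rw [this, Complex.norm_exp_ofReal_mul_I]

theorem int1 {k : ℤ} (hk : k ≠ 0) :
    ∫ t in Set.Ioc (0:ℝ) 1, Complex.exp (2 * Real.pi * Complex.I * ((k:ℝ) * t : ℝ)) = 0 := by
  rw [← intervalIntegral.integral_of_le zero_le_one]
  have hc : (2 * (Real.pi : ℂ) * Complex.I * k) ≠ 0 := by
    have := Real.pi_ne_zero
    have h2 : (k:ℂ) ≠ 0 := by exact_mod_cast hk
    have h3 : (Real.pi:ℂ) ≠ 0 := by exact_mod_cast this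
    exact mul_ne_zero (mul_ne_zero (mul_ne_zero two_ne_zero h3) Complex.I_ne_zero) h2
  have h1 : ∀ t : ℝ, Complex.exp (2 * Real.pi * Complex.I * ((k:ℝ) * t : ℝ))
      = Complex.exp ((2 * Real.pi * Complex.I * k) * t) := by
    intro t
    congr 1
    push_cast
    ring
  simp only [h1]
  rw [integral_exp_mul_complex hc]
  have h2 : Complex.exp (2 * Real.pi * Complex.I * k * ((1:ℝ):ℂ)) = 1 := by
    rw [Complex.ofReal_one, mul_one]
    have : 2 * (Real.pi : ℂ) * Complex.I * k = k * (2 * Real.pi * Complex.I) := by ring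
    rw [this]
    exact Complex.exp_int_mul_two_pi_mul_I k
  rw [h2]
  simp

/-- the uniform measure on the cube -/
noncomputable def cube (ι : Type*) [Fintype ι] : Measure (ι → ℝ) :=
  Measure.pi (fun _ : ι => (volume : Measure ℝ).restrict (Set.Ioc (0:ℝ) 1))

instance : IsProbabilityMeasure (cube ι) := by
  have : IsProbabilityMeasure ((volume : Measure ℝ).restrict (Set.Ioc (0:ℝ) 1)) := by
    constructor
    simp
  unfold cube
  infer_instance

theorem cube_le (s : Set (ι → ℝ)) (hs : volume s = 0) : cube ι s = 0 := by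
  have h1 : cube ι = (volume : Measure (ι → ℝ)).restrict (Set.univ.pi (fun _ => Set.Ioc (0:ℝ) 1)) := by
    unfold cube
    rw [volume_pi, Measure.restrict_pi_pi]
  rw [h1]
  exact le_antisymm ((Measure.restrict_apply_le _ _).trans hs.le) (zero_le)

theorem integral_ch [DecidableEq ι] (k : Multiplicative (ι → ℤ)) :
    ∫ x, ch x k ∂(cube ι) = if k = 1 then 1 else 0 := by
  split_ifs with hk
  · subst hk
    simp
  · have h1 : ∀ x : ι → ℝ, ch x k = ∏ i, Complex.exp (2 * Real.pi * Complex.I *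
        (((k.toAdd : ι → ℤ) i : ℝ) * x i : ℝ)) := by
      intro x
      rw [ch_apply, ← Complex.exp_sum]
      congr 1
      unfold lin
      rw [Complex.ofReal_sum, Finset.mul_sum]
    simp only [h1]
    unfold cube
    rw [integral_fintype_prod_eq_prod (fun i t => Complex.exp (2 * Real.pi * Complex.I *
        (((k.toAdd : ι → ℤ) i : ℝ) * t : ℝ)))]
    have h2 : ∃ i, (k.toAdd : ι → ℤ) i ≠ 0 := by
      by_contra h
      push Not at h
      apply hk
      have : k.toAdd = 0 := funext h
      exact Multiplicative.toAdd.injective this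
    obtain ⟨i, hi⟩ := h2
    exact Finset.prod_eq_zero (Finset.mem_univ i) (int1 hi)

theorem integrable_ch (k : Multiplicative (ι → ℤ)) : Integrable (fun x => ch x k) (cube ι) :=
  Integrable.of_bound (continuous_ch k).aestronglyMeasurable 1
    (Filter.Eventually.of_forall (fun x => (norm_ch x k).le))

theorem integral_ev (F : MonoidAlgebra ℝ (Multiplicative (ι → ℤ))) :
    ∫ x, ev x F ∂(cube ι) = F.coeff 1 := by
  classical
  simp only [ev_apply]
  rw [integral_finsetSum _ (fun a _ => (integrable_ch a).const_mul _)]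
  simp only [integral_const_mul, integral_ch]
  simp only [mul_ite, mul_one, mul_zero]
  rw [Finset.sum_ite_eq']
  split_ifs with h
  · rfl
  · rw [Finsupp.notMem_support_iff.1 h]
    simp

theorem continuous_ev (F : MonoidAlgebra ℝ (Multiplicative (ι → ℤ))) :
    Continuous (fun x => ev x F) := by
  simp only [ev_apply]
  apply continuous_finsetSum
  intro a _
  exact continuous_const.mul (continuous_ch a)

theorem norm_ev_le (F : MonoidAlgebra ℝ (Multiplicative (ι → ℤ))) (x : ι → ℝ) :
    ‖ev x F‖ ≤ ∑ a ∈ F.coeff.support, |F.coeff a| := by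
  rw [ev_apply]
  refine (norm_sum_le _ _).trans ?_
  apply Finset.sum_le_sum
  intro a _
  rw [norm_mul, norm_ch, mul_one, Complex.norm_real, Real.norm_eq_abs]

theorem ch_im (x : ι → ℝ) (k : Multiplicative (ι → ℤ)) :
    (ch x k).im = Real.sin (2 * Real.pi * lin k.toAdd x) := by
  rw [ch_apply]
  have : (2 * (Real.pi : ℂ) * Complex.I * (lin k.toAdd x : ℝ))
      = ((2 * Real.pi * lin k.toAdd x : ℝ) : ℂ) * Complex.I := by
    push_cast; ring
  rw [this, Complex.exp_ofReal_mul_I_im]

theorem ch_re (x : ι → ℝ) (k : Multiplicative (ι → ℤ)) :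
    (ch x k).re = Real.cos (2 * Real.pi * lin k.toAdd x) := by
  rw [ch_apply]
  have : (2 * (Real.pi : ℂ) * Complex.I * (lin k.toAdd x : ℝ))
      = ((2 * Real.pi * lin k.toAdd x : ℝ) : ℂ) * Complex.I := by
    push_cast; ring
  rw [this, Complex.exp_ofReal_mul_I_re]

theorem ev_im {F : MonoidAlgebra ℝ (Multiplicative (ι → ℤ))} (hF : ∀ a, F.coeff a⁻¹ = F.coeff a)
    (x : ι → ℝ) : (ev x F).im = 0 := by
  rw [ev_apply, Complex.im_sum]
  simp only [Complex.im_ofReal_mul, ch_im]
  set S := ∑ a ∈ F.coeff.support, F.coeff a * Real.sin (2 * Real.pi * lin a.toAdd x) with hS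
  have h1 : S = ∑ a ∈ F.coeff.support, - (F.coeff a * Real.sin (2 * Real.pi * lin a.toAdd x)) := by
    rw [hS]
    apply Finset.sum_equiv (Equiv.inv (Multiplicative (ι → ℤ)))
    · intro a
      rw [Finsupp.mem_support_iff, Finsupp.mem_support_iff, Equiv.inv_apply, hF]
    · intro a _
      rw [Equiv.inv_apply, hF, toAdd_inv, lin_neg_left]
      rw [mul_neg, Real.sin_neg]
      ring
  rw [Finset.sum_neg_distrib, ← hS] at h1
  linarith

theorem exists_direction (W : Finset (ι → ℤ)) (hW : ∀ w ∈ W, w ≠ 0) :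
    ∃ u : ι → ℤ, ∀ w ∈ W, ∑ i, w i * u i ≠ 0 := by
  classical
  have hL : ∀ w ∈ W, (∑ i, MvPolynomial.C (w i) * MvPolynomial.X i : MvPolynomial ι ℤ) ≠ 0 := by
    intro w hw h0
    obtain ⟨i, hi⟩ := Function.ne_iff.1 (hW w hw)
    have := congrArg (MvPolynomial.eval (Pi.single i 1)) h0
    rw [map_sum] at this
    simp only [map_mul, MvPolynomial.eval_C, MvPolynomial.eval_X, map_zero] at this
    rw [Finset.sum_eq_single i] at this
    · rw [Pi.single_eq_same, mul_one] at this
      exact hi this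
    · intro j _ hj
      rw [Pi.single_eq_of_ne hj, mul_zero]
    · intro h
      exact absurd (Finset.mem_univ i) h
  have hP : (∏ w ∈ W, (∑ i, MvPolynomial.C (w i) * MvPolynomial.X i : MvPolynomial ι ℤ)) ≠ 0 :=
    Finset.prod_ne_zero_iff.2 hL
  have hex : ∃ u : ι → ℤ, MvPolynomial.eval u
      (∏ w ∈ W, (∑ i, MvPolynomial.C (w i) * MvPolynomial.X i : MvPolynomial ι ℤ)) ≠ 0 := by
    by_contra h
    push Not at h
    apply hP
    apply MvPolynomial.funext
    intro u
    rw [h u, map_zero]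
  obtain ⟨u, hu⟩ := hex
  refine ⟨u, fun w hw => ?_⟩
  rw [map_prod, Finset.prod_ne_zero_iff] at hu
  have := hu w hw
  rw [map_sum] at this
  simpa only [map_mul, MvPolynomial.eval_C, MvPolynomial.eval_X] using this

/-- the real trigonometric polynomial -/
noncomputable def trig (F : MonoidAlgebra ℝ (Multiplicative (ι → ℤ))) (x : ι → ℝ) : ℝ := (ev x F).re

theorem trig_eq (F : MonoidAlgebra ℝ (Multiplicative (ι → ℤ))) (x : ι → ℝ) :
    trig F x = ∑ a ∈ F.coeff.support, F.coeff a * Real.cos (2 * Real.pi * lin a.toAdd x) := by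
  unfold trig
  rw [ev_apply, Complex.re_sum]
  simp only [Complex.re_ofReal_mul, ch_re]

theorem ev_eq_trig {F : MonoidAlgebra ℝ (Multiplicative (ι → ℤ))}
    (hF : ∀ a, F.coeff a⁻¹ = F.coeff a) (x : ι → ℝ) : ev x F = (trig F x : ℂ) := by
  apply Complex.ext
  · rfl
  · rw [ev_im hF, Complex.ofReal_im]

theorem analytic_line (F : MonoidAlgebra ℝ (Multiplicative (ι → ℤ))) (x u : ι → ℝ) :
    AnalyticOnNhd ℝ (fun t : ℝ => trig F (x + t • u)) Set.univ := by
  simp only [trig_eq, lin_line]
  intro t _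
  apply Finset.analyticAt_fun_sum
  intro a _
  apply AnalyticAt.mul analyticAt_const
  apply AnalyticAt.fun_comp Real.analyticAt_cos
  fun_prop

theorem norm_exp_real (y : ℝ) : ‖Complex.exp (2 * Real.pi * Complex.I * (y : ℝ))‖ = 1 := by
  have : (2 * (Real.pi : ℂ) * Complex.I * (y : ℝ)) = ((2 * Real.pi * y : ℝ) : ℂ) * Complex.I := by
    push_cast; ring
  rw [this, Complex.norm_exp_ofReal_mul_I]

theorem nonconst_line {F : MonoidAlgebra ℝ (Multiplicative (ι → ℤ))}
    (hF : ∀ a, F.coeff a⁻¹ = F.coeff a) {k0 : Multiplicative (ι → ℤ)} (hk0 : F.coeff k0 ≠ 0)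
    (u : ι → ℤ) (hu0 : ∑ i, (k0.toAdd : ι → ℤ) i * u i ≠ 0)
    (hu : ∀ a ∈ F.coeff.support, a ≠ k0 →
      ∑ i, (a.toAdd : ι → ℤ) i * u i ≠ ∑ i, (k0.toAdd : ι → ℤ) i * u i) (x : ι → ℝ) :
    ∃ t, deriv (fun t : ℝ => trig F (x + t • (fun i => (u i : ℝ)))) t ≠ 0 := by
  classical
  by_contra h
  push Not at h
  set q : ℝ → ℝ := fun t : ℝ => trig F (x + t • (fun i => (u i : ℝ))) with hq
  set n : (ι → ℤ) → ℤ := fun a => ∑ i, a i * u i with hn
  have hlin : ∀ a : ι → ℤ, lin a (fun i => (u i : ℝ)) = (n a : ℝ) := by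
    intro a
    simp only [lin, hn]
    push_cast
    rfl
  have hdiff : Differentiable ℝ q := fun t => (analytic_line F x _ t trivial).differentiableAt
  have hconst : ∀ t, q t = q 0 := fun t => is_const_of_deriv_eq_zero hdiff h t 0
  -- integrate against the character of frequency `n k0`
  have hI : ∀ m : ℤ, ∫ t in Set.Ioc (0:ℝ) 1, Complex.exp (2 * Real.pi * Complex.I * ((m:ℝ) * t : ℝ))
      = if m = 0 then 1 else 0 := by
    intro m
    split_ifs with hm
    · subst hm
      simp
    · exact int1 hm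
  have hJ : ∫ t in Set.Ioc (0:ℝ) 1, (q t : ℂ) *
      Complex.exp (2 * Real.pi * Complex.I * (((-(n k0.toAdd) : ℤ):ℝ) * t : ℝ)) = 0 := by
    simp only [hconst]
    rw [integral_const_mul, hI, if_neg (neg_ne_zero.2 hu0), mul_zero]
  have hexp : ∀ t : ℝ, (q t : ℂ) *
      Complex.exp (2 * Real.pi * Complex.I * (((-(n k0.toAdd) : ℤ):ℝ) * t : ℝ))
      = ∑ a ∈ F.coeff.support, ((F.coeff a : ℂ) * ch x a) *
        Complex.exp (2 * Real.pi * Complex.I * (((n a.toAdd - n k0.toAdd : ℤ):ℝ) * t : ℝ)) := by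
    intro t
    simp only [hq]
    rw [← ev_eq_trig hF, ev_apply, Finset.sum_mul]
    apply Finset.sum_congr rfl
    intro a _
    have h5 : ch (x + t • (fun i => (u i : ℝ))) a *
        Complex.exp (2 * Real.pi * Complex.I * (((-(n k0.toAdd) : ℤ):ℝ) * t : ℝ))
        = ch x a *
        Complex.exp (2 * Real.pi * Complex.I * (((n a.toAdd - n k0.toAdd : ℤ):ℝ) * t : ℝ)) := by
      rw [ch_apply, ch_apply, lin_line, hlin, ← Complex.exp_add, ← Complex.exp_add]
      congr 1
      push_cast
      ring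
    rw [mul_assoc, h5, ← mul_assoc]
  simp only [hexp] at hJ
  rw [integral_finsetSum] at hJ
  · simp only [integral_const_mul, hI] at hJ
    rw [Finset.sum_eq_single k0] at hJ
    · rw [sub_self, if_pos rfl, mul_one] at hJ
      have h2 : ch x k0 ≠ 0 := by
        intro h3
        have := norm_ch x k0
        rw [h3, norm_zero] at this
        exact zero_ne_one this
      have h4 : (F.coeff k0 : ℂ) ≠ 0 := by exact_mod_cast hk0
      exact mul_ne_zero h4 h2 hJ
    · intro a ha hne
      rw [if_neg (sub_ne_zero.2 (hu a ha hne)), mul_zero]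
    · intro hnot
      exact absurd (Finsupp.mem_support_iff.2 hk0) hnot
  · intro a _
    apply Integrable.const_mul
    apply Integrable.of_bound (C := 1)
    · apply Continuous.aestronglyMeasurable
      fun_prop
    · apply Filter.Eventually.of_forall
      intro t
      exact (norm_exp_real _).le

theorem continuous_trig (F : MonoidAlgebra ℝ (Multiplicative (ι → ℤ))) : Continuous (trig F) :=
  Complex.continuous_re.comp (continuous_ev F)

theorem null_trig {F : MonoidAlgebra ℝ (Multiplicative (ι → ℤ))}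
    (hF : ∀ a, F.coeff a⁻¹ = F.coeff a) {k0 : Multiplicative (ι → ℤ)} (hk1 : k0 ≠ 1)
    (hk0 : F.coeff k0 ≠ 0) {N : Set ℝ} (hNm : MeasurableSet N) (hN : volume N = 0) :
    volume (trig F ⁻¹' N) = 0 := by
  classical
  set W : Finset (ι → ℤ) := insert k0.toAdd
    ((F.coeff.support.erase k0).image (fun a => a.toAdd - k0.toAdd)) with hW
  have hW0 : ∀ w ∈ W, w ≠ 0 := by
    intro w hw
    rw [hW, Finset.mem_insert] at hw
    rcases hw with rfl | hw
    · intro h
      exact hk1 (Multiplicative.toAdd.injective h)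
    · obtain ⟨a, ha, rfl⟩ := Finset.mem_image.1 hw
      intro h
      exact (Finset.mem_erase.1 ha).1 (Multiplicative.toAdd.injective (sub_eq_zero.1 h))
  obtain ⟨u, hu⟩ := exists_direction W hW0
  have hu0 : ∑ i, (k0.toAdd : ι → ℤ) i * u i ≠ 0 := hu _ (Finset.mem_insert_self _ _)
  have hu1 : ∀ a ∈ F.coeff.support, a ≠ k0 →
      ∑ i, (a.toAdd : ι → ℤ) i * u i ≠ ∑ i, (k0.toAdd : ι → ℤ) i * u i := by
    intro a ha hne h
    have h1 := hu (a.toAdd - k0.toAdd) (Finset.mem_insert_of_mem
      (Finset.mem_image.2 ⟨a, Finset.mem_erase.2 ⟨hne, ha⟩, rfl⟩))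
    apply h1
    simp only [Pi.sub_apply, sub_mul, Finset.sum_sub_distrib]
    rw [h, sub_self]
  have hae : ∀ᵐ y ∂(volume : Measure (ι → ℝ)), y ∈ (trig F ⁻¹' N)ᶜ := by
    apply ae_mem_of_ae_add_linearMap_mem (LinearMap.toSpanSingleton ℝ (ι → ℝ) (fun i => (u i : ℝ)))
      (volume : Measure ℝ)
    · exact ((continuous_trig F).measurable hNm).compl
    · intro y
      obtain ⟨t0, ht0⟩ := nonconst_line hF hk0 u hu0 hu1 y
      have h1 := null_preimage (analytic_line F y _) ht0 hN
      rw [ae_iff]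
      convert h1 using 2
      ext t
      simp
  rw [ae_iff] at hae
  convert hae using 2
  ext t
  simp

theorem torus_spectral {F : MonoidAlgebra ℝ (Multiplicative (ι → ℤ))}
    (hF : ∀ a, F.coeff a⁻¹ = F.coeff a) {k0 : Multiplicative (ι → ℤ)} (hk1 : k0 ≠ 1)
    (hk0 : F.coeff k0 ≠ 0) :
    ∃ ν : Measure ℝ, ν ≪ volume ∧ ∀ j : ℕ, Integrable (fun x : ℝ => x ^ j) ν ∧
      ∫ x, x ^ j ∂ν = (F ^ j).coeff 1 := by
  refine ⟨Measure.map (trig F) (cube ι), ?_, ?_⟩
  · apply Measure.AbsolutelyContinuous.mk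
    intro N hNm hN
    rw [Measure.map_apply (continuous_trig F).measurable hNm]
    exact cube_le _ (null_trig hF hk1 hk0 hNm hN)
  · intro j
    have hm : AEMeasurable (trig F) (cube ι) := (continuous_trig F).measurable.aemeasurable
    have hs : AEStronglyMeasurable (fun x : ℝ => x ^ j) (Measure.map (trig F) (cube ι)) :=
      (continuous_pow j).aestronglyMeasurable
    constructor
    · rw [integrable_map_measure hs hm]
      apply Integrable.of_bound (C := (∑ a ∈ F.coeff.support, |F.coeff a|) ^ j)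
      · exact ((continuous_trig F).pow j).aestronglyMeasurable
      · apply Filter.Eventually.of_forall
        intro x
        simp only [Function.comp_apply]
        rw [norm_pow]
        apply pow_le_pow_left₀ (norm_nonneg _)
        rw [← Complex.norm_real, ← ev_eq_trig hF]
        exact norm_ev_le F x
    · rw [integral_map hm hs]
      have h1 : ∫ x, ev x (F ^ j) ∂(cube ι) = ((F ^ j).coeff 1 : ℂ) := integral_ev (F ^ j)
      have h2 : ∫ x, ev x (F ^ j) ∂(cube ι) = ((∫ x, (trig F x) ^ j ∂(cube ι) : ℝ) : ℂ) := by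
        rw [← integral_complex_ofReal]
        apply integral_congr_ae
        apply Filter.Eventually.of_forall
        intro x
        simp only
        rw [map_pow, ev_eq_trig hF]
        push_cast
        rfl
      rw [h2] at h1
      exact_mod_cast h1

end Pool.W_MP_b5ab1b_al
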