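import Pool.Agent.W_MP_b5ab1b_al_h72.Main
import Pool.Agent.W_MP_b5ab1b_al_h72.Torus

/-! Spectral measures of elements supported in a torsion-free abelian subgroup. -/

namespace Pool.W_MP_b5ab1b_al

open MeasureTheory

theorem exists_free {A : Type*} [CommGroup A] [Group.FG A]
    (h : ∀ (a : A) (n : ℕ), n ≠ 0 → a ^ n = 1 → a = 1) :
    ∃ n : ℕ, Nonempty (Multiplicative (Fin n → ℤ) ≃* A) := by
  have htf : IsMulTorsionFree A := by
    apply IsMulTorsionFree.of_not_isOfFinOrder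
    intro a ha hfin
    obtain ⟨n, hn, hpow⟩ := (isOfFinOrder_iff_pow_eq_one).1 hfin
    exact ha (h a n hn.ne' hpow)
  have hfin : Module.Finite ℤ (Additive A) := Module.Finite.iff_addGroup_fg.2 inferInstance
  have hfree : Module.Free ℤ (Additive A) := inferInstance
  let b := Module.finBasis ℤ (Additive A)
  exact ⟨_, ⟨AddEquiv.toMultiplicativeLeft b.equivFun.toAddEquiv.symm⟩⟩

variable {Γ : Type*} [Group Γ]

/-- transfer along an injective homomorphism from a free abelian group -/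
theorem transfer {ι : Type*} [Fintype ι] (ψ : Multiplicative (ι → ℤ) →* Γ)
    (hψ : Function.Injective ψ) {f : MonoidAlgebra ℝ Γ} (hf : ∀ g, f.coeff g⁻¹ = f.coeff g)
    (hran : ∀ g ∈ f.coeff.support, ∃ a, ψ a = g) {g0 : Γ} (hg1 : g0 ≠ 1) (hg0 : f.coeff g0 ≠ 0) :
    ∃ ν : Measure ℝ, ν ≪ volume ∧ IsSpectralMeasure f ν := by
  classical
  let φ : MonoidAlgebra ℝ (Multiplicative (ι → ℤ)) →ₐ[ℝ] MonoidAlgebra ℝ Γ :=
    MonoidAlgebra.lift ℝ (MonoidAlgebra ℝ Γ) (Multiplicative (ι → ℤ)) ((MonoidAlgebra.of ℝ Γ).comp ψ)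
  have hφ : ∀ x, φ x = ∑ a ∈ x.coeff.support, MonoidAlgebra.single (ψ a) (x.coeff a) := by
    intro x
    simp only [φ]
    rw [MonoidAlgebra.lift_apply, Finsupp.sum]
    apply Finset.sum_congr rfl
    intro a _
    rw [MonoidHom.comp_apply, MonoidAlgebra.of_apply, MonoidAlgebra.smul_single, smul_eq_mul,
      mul_one]
  have hφc : ∀ x a, (φ x).coeff (ψ a) = x.coeff a := by
    intro x a
    rw [hφ, MonoidAlgebra.coeff_sum, Finsupp.finsetSum_apply]
    simp only [MonoidAlgebra.coeff_single, Finsupp.single_apply, hψ.eq_iff]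
    rw [Finset.sum_ite_eq']
    split_ifs with h
    · rfl
    · exact (Finsupp.notMem_support_iff.1 h).symm
  have hφn : ∀ x g, (∀ a, ψ a ≠ g) → (φ x).coeff g = 0 := by
    intro x g hg
    rw [hφ, MonoidAlgebra.coeff_sum, Finsupp.finsetSum_apply]
    apply Finset.sum_eq_zero
    intro a _
    rw [MonoidAlgebra.coeff_single, Finsupp.single_apply, if_neg (hg a)]
  let F : MonoidAlgebra ℝ (Multiplicative (ι → ℤ)) :=
    MonoidAlgebra.ofCoeff (Finsupp.comapDomain ψ f.coeff hψ.injOn)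
  have hF : ∀ a, F.coeff a = f.coeff (ψ a) := fun a => rfl
  have hφF : φ F = f := by
    apply MonoidAlgebra.ext
    ext g
    by_cases hg : ∃ a, ψ a = g
    · obtain ⟨a, rfl⟩ := hg
      rw [hφc, hF]
    · push Not at hg
      rw [hφn F g hg]
      by_contra hne
      obtain ⟨a, ha⟩ := hran g (Finsupp.mem_support_iff.2 (fun h => hne h.symm))
      exact hg a ha
  obtain ⟨k0, hk0⟩ := hran g0 (Finsupp.mem_support_iff.2 hg0)
  obtain ⟨ν, hν, hmom⟩ := torus_spectral (F := F) (fun a => by rw [hF, hF, map_inv, hf])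
    (k0 := k0) (by rintro rfl; exact hg1 (by rw [← hk0, map_one])) (by rw [hF, hk0]; exact hg0)
  refine ⟨ν, hν, fun j => ⟨(hmom j).1, ?_⟩⟩
  rw [(hmom j).2]
  have h1 : f ^ j = φ (F ^ j) := by rw [map_pow, hφF]
  rw [h1]
  have h2 := hφc (F ^ j) 1
  rw [map_one] at h2
  exact h2.symm

/-- the spectral measure of a nonscalar self-adjoint element supported in a torsion-free abelian
subgroup is absolutely continuous -/
theorem abelian_spectral (L : Subgroup Γ) (hcomm : ∀ a ∈ L, ∀ b ∈ L, a * b = b * a)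
    (htf : ∀ a ∈ L, ∀ n : ℕ, n ≠ 0 → a ^ n = 1 → a = 1)
    {f : MonoidAlgebra ℝ Γ} (hf : ∀ g, f.coeff g⁻¹ = f.coeff g)
    (hfL : ∀ g ∈ f.coeff.support, g ∈ L) {g0 : Γ} (hg1 : g0 ≠ 1) (hg0 : f.coeff g0 ≠ 0) :
    ∃ ν : Measure ℝ, ν ≪ volume ∧ IsSpectralMeasure f ν := by
  classical
  set A : Subgroup Γ := Subgroup.closure (f.coeff.support : Set Γ) with hA
  have hAL : A ≤ L := (Subgroup.closure_le L).2 (fun g hg => hfL g hg)
  letI : CommGroup A := { (inferInstance : Group A) with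
    mul_comm := fun a b => Subtype.ext (hcomm a (hAL a.2) b (hAL b.2)) }
  have hfg : Group.FG A := by
    rw [Group.fg_iff_subgroup_fg]
    exact ⟨f.coeff.support, rfl⟩
  obtain ⟨n, ⟨e⟩⟩ := exists_free (A := A) (by
    intro a n hn h
    apply Subtype.ext
    exact htf a (hAL a.2) n hn (congrArg Subtype.val h))
  apply transfer ((Subgroup.subtype A).comp e.toMonoidHom) _ hf _ hg1 hg0
  · intro a b hab
    exact e.injective (Subtype.ext hab)
  · intro g hg
    exact ⟨e.symm ⟨g, Subgroup.subset_closure hg⟩, by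
      show ((e (e.symm ⟨g, _⟩) : A) : Γ) = g
      rw [e.apply_symm_apply]⟩

end Pool.W_MP_b5ab1b_al
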