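import Pool.Agent.W_MP_b5ab1b_al_h72.Defs

/-! The group ring side: finite symmetric matrices attached to `S + ∑ c(g) g f g⁻¹`. -/

namespace Pool.W_MP_b5ab1b_al

open Polynomial

universe u

variable {Γ : Type u} [Group Γ]

/-- the element `u` centralizes `L` -/
def Comm (L : Subgroup Γ) (x : Γ) : Prop := ∀ l ∈ L, l * x = x * l

theorem comm_of_comm_mul {G L : Subgroup Γ} {Sec : Set Γ} (h : CompatibleSection G L Sec) {x l : Γ}
    (hx : x ∈ Sec) (hl : l ∈ L) (hlx : l * x ∈ Sec) (hc : Comm L (l * x)) : Comm L x := by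
  rcases h.alt x hx with h1 | h1
  · -- then `L` is trivial
    intro l' hl'
    have h2 : (l * x) * l' ∈ Sec := by
      rw [← hc l' hl', ← mul_assoc]
      exact h1 _ (L.mul_mem hl' hl)
    have h3 := h.inj _ hlx _ h2 (by
      have h5 : (l * x)⁻¹ * (l * x * l') = l' := by group
      rw [h5]; exact hl')
    have h4 : l' = 1 := by
      have : (l * x) * 1 = (l * x) * l' := by rw [mul_one]; exact h3
      exact (mul_left_cancel this).symm
    rw [h4, one_mul, mul_one]
  · exact h1

theorem comm_iff {G L : Subgroup Γ} {Sec : Set Γ} (h : CompatibleSection G L Sec) {x l : Γ}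
    (hx : x ∈ Sec) (hl : l ∈ L) (hlx : l * x ∈ Sec) : Comm L (l * x) ↔ Comm L x := by
  refine ⟨comm_of_comm_mul h hx hl hlx, fun hc => ?_⟩
  have h1 : l⁻¹ * (l * x) ∈ Sec := by simpa using hx
  exact comm_of_comm_mul h hlx (L.inv_mem hl) h1 (by simpa using hc)

open Classical in
/-- the off-diagonal part of the matrices -/
noncomputable def aM (L : Subgroup Γ) (S f : MonoidAlgebra ℝ Γ) (c : Γ →₀ ℝ) (s t : Γ) : ℝ :=
  S.coeff (s * t⁻¹) + ∑ g ∈ c.support,
    if Comm L (g⁻¹ * t) then 0 else c g * f.coeff (g⁻¹ * s * t⁻¹ * g)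

open Classical in
/-- the weights of the coupling -/
noncomputable def wM (L : Subgroup Γ) (c : Γ →₀ ℝ) (t : Γ) : ℝ :=
  ∑ g ∈ c.support, if Comm L (g⁻¹ * t) then c g else 0

theorem aM_symm {G L : Subgroup Γ} {Sec : Set Γ} (h : CompatibleSection G L Sec)
    {S f : MonoidAlgebra ℝ Γ} {c : Γ →₀ ℝ} (hS : ∀ g, S.coeff g⁻¹ = S.coeff g)
    (hf : ∀ g, f.coeff g⁻¹ = f.coeff g) (hfL : ∀ g ∈ f.coeff.support, g ∈ L)
    (hcG : ∀ g ∈ c.support, g ∈ G) {s t : Γ} (hs : s ∈ Sec) (ht : t ∈ Sec) :
    aM L S f c s t = aM L S f c t s := by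
  classical
  unfold aM
  congr 1
  · rw [← hS (s * t⁻¹)]
    congr 1
    group
  · apply Finset.sum_congr rfl
    intro g hg
    set x := g⁻¹ * s * t⁻¹ * g with hx
    have hxi : g⁻¹ * t * s⁻¹ * g = x⁻¹ := by rw [hx]; group
    rw [hxi, hf x]
    by_cases hxL : x ∈ L
    · have h1 : x * (g⁻¹ * t) = g⁻¹ * s := by rw [hx]; group
      have h2 : g⁻¹ * t ∈ Sec := h.left_mul _ (G.inv_mem (hcG g hg)) _ ht
      have h3 : x * (g⁻¹ * t) ∈ Sec := by rw [h1]; exact h.left_mul _ (G.inv_mem (hcG g hg)) _ hs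
      have h4 := comm_iff h h2 hxL h3
      rw [h1] at h4
      by_cases h5 : Comm L (g⁻¹ * t)
      · rw [if_pos h5, if_pos (h4.2 h5)]
      · rw [if_neg h5, if_neg (fun h6 => h5 (h4.1 h6))]
    · have h0 : f.coeff x = 0 := by
        by_contra hne
        exact hxL (hfL x (Finsupp.mem_support_iff.2 hne))
      simp only [h0, mul_zero, ite_self]

theorem wM_nonneg (L : Subgroup Γ) {c : Γ →₀ ℝ} (hc : ∀ g, 0 ≤ c g) (t : Γ) : 0 ≤ wM L c t := by
  classical
  unfold wM
  apply Finset.sum_nonneg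
  intro g _
  split_ifs
  · exact hc g
  · exact le_rfl

theorem le_wM_self (L : Subgroup Γ) {c : Γ →₀ ℝ} (hc : ∀ g, 0 ≤ c g) {g0 : Γ} (hg0 : g0 ∈ c.support) :
    c g0 ≤ wM L c g0 := by
  classical
  unfold wM
  have h1 : c g0 = if Comm L (g0⁻¹ * g0) then c g0 else 0 := by
    rw [if_pos]
    intro l _
    simp
  conv_lhs => rw [h1]
  exact Finset.single_le_sum (f := fun g => if Comm L (g⁻¹ * g0) then c g else 0)
    (fun g _ => by
      split_ifs
      · exact hc g
      · exact le_rfl) hg0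

/-- the `ℓ¹` norm -/
noncomputable def N1 (x : MonoidAlgebra ℝ Γ) : ℝ := ∑ g ∈ x.coeff.support, |x.coeff g|

theorem N1_eq (x : MonoidAlgebra ℝ Γ) {U : Finset Γ} (h : x.coeff.support ⊆ U) :
    N1 x = ∑ g ∈ U, |x.coeff g| := by
  unfold N1
  apply Finset.sum_subset h
  intro g _ hg
  rw [Finsupp.notMem_support_iff.1 hg, abs_zero]

theorem N1_nonneg (x : MonoidAlgebra ℝ Γ) : 0 ≤ N1 x := Finset.sum_nonneg (fun _ _ => abs_nonneg _)

theorem N1_add (x y : MonoidAlgebra ℝ Γ) : N1 (x + y) ≤ N1 x + N1 y := by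
  classical
  have h1 : x.coeff.support ⊆ x.coeff.support ∪ y.coeff.support := Finset.subset_union_left
  have h2 : y.coeff.support ⊆ x.coeff.support ∪ y.coeff.support := Finset.subset_union_right
  have h3 : (x + y).coeff.support ⊆ x.coeff.support ∪ y.coeff.support := by
    rw [MonoidAlgebra.coeff_add]
    exact Finsupp.support_add
  rw [N1_eq x h1, N1_eq y h2, N1_eq (x+y) h3, ← Finset.sum_add_distrib]
  apply Finset.sum_le_sum
  intro g _
  rw [MonoidAlgebra.coeff_add]
  exact abs_add_le _ _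

theorem N1_zero : N1 (0 : MonoidAlgebra ℝ Γ) = 0 := by
  simp [N1]

theorem N1_single (g : Γ) (a : ℝ) : N1 (MonoidAlgebra.single g a) = |a| := by
  classical
  have h : (MonoidAlgebra.single g a).coeff.support ⊆ {g} := by
    rw [MonoidAlgebra.coeff_single]
    exact Finsupp.support_single_subset
  rw [N1_eq _ h]
  simp

theorem N1_single_mul (g : Γ) (a : ℝ) (y : MonoidAlgebra ℝ Γ) :
    N1 (MonoidAlgebra.single g a * y) ≤ |a| * N1 y := by
  induction y using MonoidAlgebra.induction with
  | zero => rw [mul_zero, N1_zero, mul_zero]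
  | single_add m r x hm hr ih =>
    classical
    have h1 : N1 (MonoidAlgebra.single m r + x) = |r| + N1 x := by
      have h2 : (MonoidAlgebra.single m r + x).coeff.support ⊆ insert m x.coeff.support := by
        rw [MonoidAlgebra.coeff_add, MonoidAlgebra.coeff_single]
        refine Finsupp.support_add.trans ?_
        rw [Finset.insert_eq]
        exact Finset.union_subset_union Finsupp.support_single_subset (Finset.Subset.refl _)
      rw [N1_eq _ h2, Finset.sum_insert hm]
      congr 1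
      · rw [MonoidAlgebra.coeff_add, MonoidAlgebra.coeff_single, Finsupp.add_apply,
          Finsupp.single_eq_same, Finsupp.notMem_support_iff.1 hm, add_zero]
      · unfold N1
        apply Finset.sum_congr rfl
        intro g hg
        rw [MonoidAlgebra.coeff_add, MonoidAlgebra.coeff_single, Finsupp.add_apply,
          Finsupp.single_eq_of_ne (by rintro rfl; exact hm hg), zero_add]
    rw [mul_add, MonoidAlgebra.single_mul_single, h1, mul_add]
    refine (N1_add _ _).trans ?_
    rw [N1_single, abs_mul]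
    linarith

theorem N1_mul (x y : MonoidAlgebra ℝ Γ) : N1 (x * y) ≤ N1 x * N1 y := by
  induction x using MonoidAlgebra.induction with
  | zero => rw [zero_mul, N1_zero, zero_mul]
  | single_add m r x hm hr ih =>
    classical
    have h1 : N1 (MonoidAlgebra.single m r + x) = |r| + N1 x := by
      have h2 : (MonoidAlgebra.single m r + x).coeff.support ⊆ insert m x.coeff.support := by
        rw [MonoidAlgebra.coeff_add, MonoidAlgebra.coeff_single]
        refine Finsupp.support_add.trans ?_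
        rw [Finset.insert_eq]
        exact Finset.union_subset_union Finsupp.support_single_subset (Finset.Subset.refl _)
      rw [N1_eq _ h2, Finset.sum_insert hm]
      congr 1
      · rw [MonoidAlgebra.coeff_add, MonoidAlgebra.coeff_single, Finsupp.add_apply,
          Finsupp.single_eq_same, Finsupp.notMem_support_iff.1 hm, add_zero]
      · unfold N1
        apply Finset.sum_congr rfl
        intro g hg
        rw [MonoidAlgebra.coeff_add, MonoidAlgebra.coeff_single, Finsupp.add_apply,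
          Finsupp.single_eq_of_ne (by rintro rfl; exact hm hg), zero_add]
    rw [add_mul, h1, add_mul]
    refine (N1_add _ _).trans ?_
    have := N1_single_mul m r y
    linarith

theorem N1_pow (x : MonoidAlgebra ℝ Γ) (k : ℕ) : N1 (x ^ k) ≤ N1 x ^ k := by
  induction k with
  | zero =>
    rw [pow_zero, pow_zero, MonoidAlgebra.one_def, N1_single, abs_one]
  | succ k ih =>
    rw [pow_succ, pow_succ]
    exact (N1_mul _ _).trans (mul_le_mul_of_nonneg_right ih (N1_nonneg x))

theorem abs_coeff_le_N1 (x : MonoidAlgebra ℝ Γ) (g : Γ) : |x.coeff g| ≤ N1 x := by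
  by_cases hg : g ∈ x.coeff.support
  · exact Finset.single_le_sum (f := fun g => |x.coeff g|) (fun _ _ => abs_nonneg _) hg
  · rw [Finsupp.notMem_support_iff.1 hg, abs_zero]
    exact N1_nonneg x

theorem sum_abs_coeff_le (x : MonoidAlgebra ℝ Γ) {ι : Type*} (F : Finset ι) (e : ι → Γ)
    (he : Function.Injective e) : ∑ i ∈ F, |x.coeff (e i)| ≤ N1 x := by
  classical
  have h1 : ∑ i ∈ F, |x.coeff (e i)| = ∑ g ∈ F.image e, |x.coeff g| :=
    (Finset.sum_image (f := fun g => |x.coeff g|) (fun a _ b _ hab => he hab)).symm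
  rw [h1, N1_eq x (Finset.subset_union_left (s₂ := F.image e))]
  exact Finset.sum_le_sum_of_subset_of_nonneg Finset.subset_union_right (fun _ _ _ => abs_nonneg _)

/-- bound for the row sums of the matrices -/
theorem row_sum_le (L : Subgroup Γ) (S f : MonoidAlgebra ℝ Γ) (c : Γ →₀ ℝ) (hc : ∀ g, 0 ≤ c g)
    (F : Finset Γ) (s : Γ) :
    ∑ t ∈ F, |aM L S f c s t| ≤ N1 S + (∑ g ∈ c.support, c g) * N1 f := by
  classical
  unfold aM
  have h1 : ∀ t ∈ F, |S.coeff (s * t⁻¹) + ∑ g ∈ c.support,
      if Comm L (g⁻¹ * t) then 0 else c g * f.coeff (g⁻¹ * s * t⁻¹ * g)|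
      ≤ |S.coeff (s * t⁻¹)| + ∑ g ∈ c.support, c g * |f.coeff (g⁻¹ * s * t⁻¹ * g)| := by
    intro t _
    refine (abs_add_le _ _).trans ?_
    apply add_le_add le_rfl
    refine (Finset.abs_sum_le_sum_abs _ _).trans ?_
    apply Finset.sum_le_sum
    intro g _
    split_ifs
    · rw [abs_zero]; exact mul_nonneg (hc g) (abs_nonneg _)
    · rw [abs_mul, abs_of_nonneg (hc g)]
  refine (Finset.sum_le_sum h1).trans ?_
  rw [Finset.sum_add_distrib]
  apply add_le_add
  · apply sum_abs_coeff_le S F (fun t => s * t⁻¹)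
    intro a b hab
    simpa using hab
  · rw [Finset.sum_comm, Finset.sum_mul]
    apply Finset.sum_le_sum
    intro g _
    rw [← Finset.mul_sum]
    apply mul_le_mul_of_nonneg_left _ (hc g)
    apply sum_abs_coeff_le f F (fun t => g⁻¹ * s * t⁻¹ * g)
    intro a b hab
    simpa using hab

theorem wM_le (L : Subgroup Γ) (c : Γ →₀ ℝ) (hc : ∀ g, 0 ≤ c g) (t : Γ) :
    wM L c t ≤ ∑ g ∈ c.support, c g := by
  classical
  unfold wM
  apply Finset.sum_le_sum
  intro g _
  split_ifs
  · exact le_rfl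
  · exact hc g

end Pool.W_MP_b5ab1b_al
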