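import Mathlib

/-! Measure theoretic lemmas. -/

namespace Pool.W_MP_b5ab1b_al

open MeasureTheory

/-- a compact null set is covered by few grid intervals -/
theorem exists_grid {K : Set ℝ} (hK : IsCompact K) (hK0 : volume K = 0) {δ : ℝ} (hδ : 0 < δ) :
    ∃ r : ℝ, 0 < r ∧ ∃ J : Finset ℤ, (∀ x ∈ K, ∃ j ∈ J, r * j ≤ x ∧ x ≤ r * (j + 1)) ∧
      r * J.card ≤ δ := by
  obtain ⟨U, hKU, hUo, hU⟩ := Set.exists_isOpen_lt_of_lt K (ENNReal.ofReal δ) (μ := volume)
    (by rw [hK0]; exact ENNReal.ofReal_pos.2 hδ)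
  obtain ⟨ρ, hρ, hth⟩ := hK.exists_thickening_subset_open hUo hKU
  refine ⟨ρ, hρ, ?_⟩
  obtain ⟨B, hB⟩ := hK.isBounded.exists_norm_le
  have hfin : ((fun x : ℝ => ⌊x / ρ⌋) '' K).Finite := by
    apply (Set.finite_Icc (⌊-B/ρ⌋) (⌊B/ρ⌋)).subset
    rintro _ ⟨x, hx, rfl⟩
    have := abs_le.1 (hB x hx)
    exact ⟨Int.floor_le_floor ((div_le_div_iff_of_pos_right hρ).2 this.1),
      Int.floor_le_floor ((div_le_div_iff_of_pos_right hρ).2 this.2)⟩
  refine ⟨hfin.toFinset, ?_, ?_⟩
  · intro x hx
    refine ⟨⌊x / ρ⌋, hfin.mem_toFinset.2 ⟨x, hx, rfl⟩, ?_, ?_⟩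
    · have := Int.floor_le (x / ρ)
      rw [le_div_iff₀ hρ] at this
      linarith
    · have := (Int.lt_floor_add_one (x / ρ)).le
      rw [div_le_iff₀ hρ] at this
      linarith
  · have hsub : (⋃ j ∈ hfin.toFinset, Set.Ico (ρ * (j:ℝ)) (ρ * (j + 1))) ⊆ U := by
      intro y hy
      simp only [Set.mem_iUnion] at hy
      obtain ⟨j, hj, hy⟩ := hy
      obtain ⟨x, hx, rfl⟩ := hfin.mem_toFinset.1 hj
      apply hth
      rw [Metric.mem_thickening_iff]
      refine ⟨x, hx, ?_⟩
      have h1 := Int.floor_le (x / ρ)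
      have h2 := Int.lt_floor_add_one (x / ρ)
      rw [le_div_iff₀ hρ] at h1
      rw [div_lt_iff₀ hρ] at h2
      obtain ⟨h3, h4⟩ := hy
      rw [Real.dist_eq, abs_lt]
      constructor <;> nlinarith
    have hvol : volume (⋃ j ∈ hfin.toFinset, Set.Ico (ρ * (j:ℝ)) (ρ * (j + 1)))
        = ENNReal.ofReal (ρ * hfin.toFinset.card) := by
      rw [measure_biUnion_finset]
      · simp only [Real.volume_Ico]
        have : ∀ j : ℤ, ρ * ((j:ℝ) + 1) - ρ * j = ρ := fun j => by ring
        simp only [this, Finset.sum_const, nsmul_eq_mul]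
        rw [mul_comm ρ, ENNReal.ofReal_mul (by positivity), ENNReal.ofReal_natCast]
      · intro i _ j _ hij
        rw [Function.onFun, Set.disjoint_left]
        intro y hy1 hy2
        apply hij
        have e1 : (i:ℝ) < j + 1 := by
          have : ρ * (i:ℝ) < ρ * (j + 1) := lt_of_le_of_lt hy1.1 hy2.2
          exact lt_of_mul_lt_mul_left this hρ.le
        have e2 : (j:ℝ) < i + 1 := by
          have : ρ * (j:ℝ) < ρ * (i + 1) := lt_of_le_of_lt hy2.1 hy1.2
          exact lt_of_mul_lt_mul_left this hρ.le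
        have e3 : i < j + 1 := by exact_mod_cast e1
        have e4 : j < i + 1 := by exact_mod_cast e2
        omega
      · intro j _
        exact measurableSet_Ico
    have h5 := (measure_mono hsub).trans hU.le
    rw [hvol] at h5
    exact (ENNReal.ofReal_le_ofReal_iff hδ.le).1 h5

/-- a measure whose even moments grow at most like `R^(2k)` lives on `[-R, R]` -/
theorem supp_of_moments {μ : Measure ℝ} (hint : ∀ k : ℕ, Integrable (fun x : ℝ => x ^ k) μ)
    {C R : ℝ} (hR : 0 ≤ R) (h : ∀ k : ℕ, ∫ x, x ^ (2*k) ∂μ ≤ C * R ^ (2*k)) :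
    μ {x | R < |x|} = 0 := by
  have hfin : IsFiniteMeasure μ := by
    have := hint 0
    simp only [pow_zero] at this
    exact (integrable_const_iff_isFiniteMeasure one_ne_zero).1 this
  have hm : ∀ m : ℕ, μ {x | R + 1/((m:ℝ)+1) ≤ |x|} = 0 := by
    intro m
    have hm0 : (0:ℝ) < 1/((m:ℝ)+1) := by positivity
    set R' := R + 1/((m:ℝ)+1) with hR'
    have hR'0 : 0 < R' := by linarith
    have hle : ∀ k : ℕ, μ.real {x | R' ≤ |x|} ≤ C * ((R/R')^2)^k := by
      intro k
      have h1 := mul_meas_ge_le_integral_of_nonneg (μ := μ) (f := fun x : ℝ => x^(2*k))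
        (Filter.Eventually.of_forall (fun x => by
          simp only [Pi.zero_apply]; rw [pow_mul]; positivity)) (hint (2*k)) (R'^(2*k))
      have h2 : {x : ℝ | R' ≤ |x|} ⊆ {x : ℝ | R'^(2*k) ≤ x^(2*k)} := by
        intro x hx
        simp only [Set.mem_setOf_eq] at hx ⊢
        calc R'^(2*k) ≤ |x|^(2*k) := pow_le_pow_left₀ hR'0.le hx _
          _ = x^(2*k) := by rw [pow_mul, pow_mul, sq_abs]
      have h3 : μ.real {x | R' ≤ |x|} ≤ μ.real {x : ℝ | R'^(2*k) ≤ x^(2*k)} :=
        measureReal_mono h2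
      have h4 : R'^(2*k) * μ.real {x | R' ≤ |x|} ≤ C * R^(2*k) :=
        le_trans (mul_le_mul_of_nonneg_left h3 (by positivity)) (h1.trans (h k))
      have h5 : C * ((R/R')^2)^k = C * R^(2*k) / R'^(2*k) := by
        rw [← pow_mul, div_pow]; ring
      rw [h5, le_div_iff₀ (by positivity)]
      linarith
    have hlim : Filter.Tendsto (fun k : ℕ => C * ((R/R')^2)^k) Filter.atTop (nhds (C * 0)) := by
      apply Filter.Tendsto.const_mul
      apply tendsto_pow_atTop_nhds_zero_of_lt_one (sq_nonneg _)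
      have h6 : R/R' < 1 := by rw [div_lt_one hR'0]; linarith
      have h7 : 0 ≤ R/R' := div_nonneg hR hR'0.le
      nlinarith
    rw [mul_zero] at hlim
    have h8 : μ.real {x | R' ≤ |x|} ≤ 0 := ge_of_tendsto' hlim hle
    have h9 : μ.real {x | R' ≤ |x|} = 0 := le_antisymm h8 measureReal_nonneg
    exact (measureReal_eq_zero_iff).1 h9
  have hsub : {x : ℝ | R < |x|} ⊆ ⋃ m : ℕ, {x | R + 1/((m:ℝ)+1) ≤ |x|} := by
    intro x hx
    simp only [Set.mem_setOf_eq] at hx
    obtain ⟨m, hm⟩ := exists_nat_one_div_lt (sub_pos.2 hx)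
    exact Set.mem_iUnion.2 ⟨m, by simp only [Set.mem_setOf_eq]; linarith⟩
  exact measure_mono_null hsub (measure_iUnion_null hm)

/-- truncated integrals against a measure, in terms of Lebesgue integrals and the singular part -/
theorem min_integral_le (ν : Measure ℝ) [IsFiniteMeasure ν] {L : ℝ} (hL : 0 ≤ L)
    (hν : ν {x | L < |x|} = 0) {ε : ℝ} (hε : 0 < ε) :
    ∃ δ : ℝ, 0 < δ ∧ ∀ Y : ℝ → ℝ, Continuous Y → (∀ v, 0 ≤ Y v) → ∫ v in (-L)..L, Y v ≤ δ →
      ∫ v, min 1 (Y v) ∂ν ≤ (ν.singularPart volume).real Set.univ + ε := by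
  set νa := volume.withDensity (ν.rnDeriv volume) with hνa
  set νs := ν.singularPart volume with hνs
  have hdec : νs + νa = ν := ν.singularPart_add_rnDeriv volume
  have hνa_le : νa ≤ ν := by
    rw [← hdec]; exact Measure.le_add_left le_rfl
  have hνs_le : νs ≤ ν := by
    rw [← hdec]; exact Measure.le_add_right le_rfl
  haveI : IsFiniteMeasure νa := isFiniteMeasure_of_le ν hνa_le
  haveI : IsFiniteMeasure νs := isFiniteMeasure_of_le ν hνs_le
  have hνa0 : νa {x | L < |x|} = 0 := le_antisymm ((hνa_le _).trans hν.le) (zero_le)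
  set M := νa.real Set.univ with hM
  have hM0 : 0 ≤ M := measureReal_nonneg
  obtain ⟨δ0, hδ0, hδ⟩ := exists_pos_setLIntegral_lt_of_measure_lt (μ := (volume : Measure ℝ))
    (Measure.lintegral_rnDeriv_lt_top ν volume).ne (ε := ENNReal.ofReal (ε/2))
    (ENNReal.ofReal_pos.2 (by positivity)).ne'
  set t := ε / (2 * (M+1)) with ht
  have ht0 : 0 < t := by positivity
  obtain ⟨δ1, hδ1, hδ1'⟩ : ∃ δ1 : ℝ, 0 < δ1 ∧ ENNReal.ofReal δ1 < δ0 := by
    rcases eq_or_ne δ0 ⊤ with h | h
    · exact ⟨1, one_pos, by rw [h]; exact ENNReal.ofReal_lt_top⟩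
    · have hpos : 0 < δ0.toReal := ENNReal.toReal_pos hδ0.ne' h
      refine ⟨δ0.toReal/2, by positivity, ?_⟩
      rw [ENNReal.ofReal_lt_iff_lt_toReal (by positivity) h]
      linarith
  refine ⟨t * δ1, by positivity, ?_⟩
  intro Y hYc hY0 hYint
  set B : Set ℝ := {v | t ≤ Y v} ∩ Set.Icc (-L) L with hB
  have hBm : MeasurableSet B :=
    (measurableSet_le measurable_const hYc.measurable).inter measurableSet_Icc
  have hLL : -L ≤ L := by linarith
  have hvolB : volume B ≤ ENNReal.ofReal δ1 := by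
    have h1 := mul_meas_ge_le_integral_of_nonneg (μ := volume.restrict (Set.Icc (-L) L)) (f := Y)
      (Filter.Eventually.of_forall hY0) (hYc.continuousOn.integrableOn_compact isCompact_Icc) t
    rw [intervalIntegral.integral_of_le hLL, ← integral_Icc_eq_integral_Ioc] at hYint
    have h2 : t * (volume.restrict (Set.Icc (-L) L)).real {v | t ≤ Y v} ≤ t * δ1 := h1.trans hYint
    have h3 := le_of_mul_le_mul_left h2 ht0
    have h4 : (volume.restrict (Set.Icc (-L) L)) {v | t ≤ Y v} = volume B := by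
      rw [Measure.restrict_apply (measurableSet_le measurable_const hYc.measurable)]
    rw [Measure.real, h4] at h3
    have h5 : volume B ≠ ⊤ :=
      ((measure_mono Set.inter_subset_right).trans_lt isCompact_Icc.measure_lt_top).ne
    rw [← ENNReal.ofReal_toReal h5]
    exact ENNReal.ofReal_le_ofReal h3
  have hνaB : νa.real B ≤ ε/2 := by
    have h1 := (hδ B (lt_of_le_of_lt hvolB hδ1')).le
    rw [← withDensity_apply _ hBm] at h1
    rw [Measure.real]
    exact ENNReal.toReal_le_of_le_ofReal (by positivity) h1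
  have hmeas : Continuous (fun v => min 1 (Y v)) := continuous_const.min hYc
  have hbdd : ∀ v, ‖min 1 (Y v)‖ ≤ 1 := by
    intro v
    rw [Real.norm_eq_abs, abs_of_nonneg (le_min zero_le_one (hY0 v))]
    exact min_le_left _ _
  have hint : ∀ (m : Measure ℝ) [IsFiniteMeasure m], Integrable (fun v => min 1 (Y v)) m :=
    fun m _ => Integrable.of_bound hmeas.aestronglyMeasurable 1 (Filter.Eventually.of_forall hbdd)
  have hs : ∫ v, min 1 (Y v) ∂νs ≤ νs.real Set.univ := by
    have := integral_mono (hint νs) (integrable_const (1:ℝ)) (fun v => min_le_left 1 (Y v))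
    simpa using this
  have ha : ∫ v, min 1 (Y v) ∂νa ≤ t * M + νa.real B := by
    have h1 : ∫ v, min 1 (Y v) ∂νa ≤ ∫ v, (t + B.indicator (fun _ => (1:ℝ)) v) ∂νa := by
      apply integral_mono_ae (hint νa)
      · exact (integrable_const t).add ((integrable_const (1:ℝ)).indicator hBm)
      · have h2 : ∀ᵐ v ∂νa, ¬ (L < |v|) := by
          rw [ae_iff]
          simpa using hνa0
        filter_upwards [h2] with v hv
        by_cases hvt : t ≤ Y v
        · have : v ∈ B := ⟨hvt, abs_le.1 (not_lt.1 hv)⟩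
          rw [Set.indicator_of_mem this]
          have := min_le_left 1 (Y v)
          linarith
        · have h3 := min_le_right 1 (Y v)
          have h4 : 0 ≤ B.indicator (fun _ => (1:ℝ)) v :=
            Set.indicator_nonneg (fun _ _ => zero_le_one) v
          rw [not_le] at hvt
          linarith
    refine h1.trans (le_of_eq ?_)
    rw [integral_add (integrable_const t) ((integrable_const (1:ℝ)).indicator hBm),
      integral_indicator hBm]
    simp [hM]
    ring
  have htM : t * M ≤ ε/2 := by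
    rw [ht, div_mul_eq_mul_div, div_le_div_iff₀ (by positivity) (by positivity)]
    nlinarith
  have hsum : ∫ v, min 1 (Y v) ∂ν = ∫ v, min 1 (Y v) ∂νs + ∫ v, min 1 (Y v) ∂νa := by
    conv_lhs => rw [← hdec]
    exact integral_add_measure (hint νs) (hint νa)
  rw [hsum]
  linarith

/-- compact null sets control the singular part -/
theorem sing_le {μ : Measure ℝ} [IsFiniteMeasure μ] {b : ENNReal}
    (h : ∀ K : Set ℝ, IsCompact K → volume K = 0 → μ K ≤ b) :
    (μ.singularPart volume) Set.univ ≤ b := by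
  obtain ⟨s, hs, hs1, hs2⟩ := Measure.mutuallySingular_singularPart μ volume
  have h1 : (μ.singularPart volume) Set.univ ≤ μ sᶜ := by
    calc (μ.singularPart volume) Set.univ
        ≤ (μ.singularPart volume) s + (μ.singularPart volume) sᶜ := by
          rw [← Set.union_compl_self s]; exact measure_union_le _ _
      _ = (μ.singularPart volume) sᶜ := by rw [hs1, zero_add]
      _ ≤ μ sᶜ := Measure.singularPart_le μ volume _
  refine h1.trans ?_
  rw [hs.compl.measure_eq_iSup_isCompact]
  refine iSup_le fun K => iSup_le fun hK => iSup_le fun hKc => ?_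
  exact h K hKc (measure_mono_null hK hs2)

end Pool.W_MP_b5ab1b_al
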