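import Mathlib

/-! Finite-dimensional spectral theorem in coordinates. -/

namespace Pool.W_MP_b5ab1b_al

open Matrix

variable {n : Type*} [Fintype n] [DecidableEq n]

theorem exists_spectral (H : Matrix n n ℝ) (hH : H.IsSymm) (o : n) :
    ∃ (lam om : n → ℝ), (∀ i, 0 ≤ om i) ∧ (∑ i, om i = 1) ∧
      (∀ k : ℕ, (H^k) o o = ∑ i, om i * lam i ^ k) ∧
      (∀ z : ℂ, 0 < z.im → (((H.map (algebraMap ℝ ℂ) - z • (1 : Matrix n n ℂ))⁻¹) o o).im
        = ∑ i, om i * (z.im / ((lam i - z.re)^2 + z.im^2))) ∧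
      ∀ R : ℝ, (∀ i, ∑ j, |H i j| ≤ R) → ∀ i, |lam i| ≤ R := by
  have hH' : H.IsHermitian := by
    ext i j
    simp [Matrix.conjTranspose_apply, hH.apply i j]
  obtain ⟨U, hU⟩ : ∃ U : Matrix n n ℝ, U = (hH'.eigenvectorUnitary : Matrix n n ℝ) := ⟨_, rfl⟩
  obtain ⟨D, hD⟩ : ∃ D : n → ℝ, D = hH'.eigenvalues := ⟨_, rfl⟩
  have hUt : star U = Uᵀ := by
    ext i j
    simp [Matrix.star_apply]
  have hUU : Uᵀ * U = 1 := by
    rw [← hUt, hU]
    exact Unitary.coe_star_mul_self _
  have hUU' : U * Uᵀ = 1 := by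
    rw [← hUt, hU]
    exact Unitary.coe_mul_star_self _
  have hspec : H = U * Matrix.diagonal D * Uᵀ := by
    have h := hH'.spectral_theorem
    rw [Unitary.conjStarAlgAut_apply] at h
    rw [← hUt, hU, hD]
    exact h
  have hpow : ∀ k : ℕ, H^k = U * Matrix.diagonal (fun i => D i ^ k) * Uᵀ := by
    intro k
    induction k with
    | zero => simp [hUU']
    | succ k ih =>
      rw [pow_succ, ih]
      conv_lhs => rw [hspec]
      calc U * Matrix.diagonal (fun i => D i ^ k) * Uᵀ * (U * Matrix.diagonal D * Uᵀ)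
          = U * Matrix.diagonal (fun i => D i ^ k) * (Uᵀ * U) * Matrix.diagonal D * Uᵀ := by
            simp only [Matrix.mul_assoc]
        _ = U * (Matrix.diagonal (fun i => D i ^ k) * Matrix.diagonal D) * Uᵀ := by
            rw [hUU, Matrix.mul_one, Matrix.mul_assoc U]
        _ = _ := by
            rw [Matrix.diagonal_mul_diagonal]
            simp only [pow_succ]
  refine ⟨D, fun i => (U o i)^2, fun i => sq_nonneg _, ?_, ?_, ?_, ?_⟩
  · have h := congrArg (fun M => M o o) hUU'
    simp only [Matrix.mul_apply, Matrix.transpose_apply, Matrix.one_apply_eq] at h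
    rw [← h]
    exact Finset.sum_congr rfl (fun i _ => sq _)
  · intro k
    rw [hpow k, Matrix.mul_apply]
    apply Finset.sum_congr rfl
    intro i _
    rw [Matrix.mul_diagonal, Matrix.transpose_apply]
    ring
  · intro z hz
    set V : Matrix n n ℂ := U.map (algebraMap ℝ ℂ) with hV
    have hVV : Vᵀ * V = 1 := by
      rw [hV, ← Matrix.transpose_map, ← Matrix.map_mul, hUU]
      simp
    have hVV' : V * Vᵀ = 1 := by
      rw [hV, ← Matrix.transpose_map, ← Matrix.map_mul, hUU']
      simp
    have hne : ∀ i, ((D i : ℂ) - z) ≠ 0 := by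
      intro i h
      have := congrArg Complex.im h
      simp at this
      linarith
    have hHz : H.map (algebraMap ℝ ℂ) - z • (1 : Matrix n n ℂ)
        = V * Matrix.diagonal (fun i => (D i : ℂ) - z) * Vᵀ := by
      have h1 : H.map (algebraMap ℝ ℂ) = V * Matrix.diagonal (fun i => (D i : ℂ)) * Vᵀ := by
        conv_lhs => rw [hspec]
        rw [Matrix.map_mul, Matrix.map_mul, Matrix.transpose_map, Matrix.diagonal_map (by simp)]
        rfl
      have h2 : Matrix.diagonal (fun i => (D i : ℂ) - z)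
          = Matrix.diagonal (fun i => (D i : ℂ)) - z • (1 : Matrix n n ℂ) := by
        rw [Matrix.smul_one_eq_diagonal, Matrix.diagonal_sub]
      rw [h2, Matrix.mul_sub, Matrix.sub_mul, ← h1, Matrix.mul_smul, Matrix.mul_one,
        Matrix.smul_mul, hVV']
    have hinv : (H.map (algebraMap ℝ ℂ) - z • (1 : Matrix n n ℂ))⁻¹
        = V * Matrix.diagonal (fun i => ((D i : ℂ) - z)⁻¹) * Vᵀ := by
      apply Matrix.inv_eq_right_inv
      rw [hHz]
      calc V * Matrix.diagonal (fun i => (D i : ℂ) - z) * Vᵀ *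
            (V * Matrix.diagonal (fun i => ((D i : ℂ) - z)⁻¹) * Vᵀ)
          = V * Matrix.diagonal (fun i => (D i : ℂ) - z) * (Vᵀ * V) *
            Matrix.diagonal (fun i => ((D i : ℂ) - z)⁻¹) * Vᵀ := by
            simp only [Matrix.mul_assoc]
        _ = V * (Matrix.diagonal (fun i => (D i : ℂ) - z) *
            Matrix.diagonal (fun i => ((D i : ℂ) - z)⁻¹)) * Vᵀ := by
            rw [hVV, Matrix.mul_one, Matrix.mul_assoc V]
        _ = V * 1 * Vᵀ := by
            rw [Matrix.diagonal_mul_diagonal]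
            congr 2
            rw [← Matrix.diagonal_one]
            congr 1
            funext i
            exact mul_inv_cancel₀ (hne i)
        _ = 1 := by rw [Matrix.mul_one, hVV']
    rw [hinv, Matrix.mul_apply, Complex.im_sum]
    apply Finset.sum_congr rfl
    intro i _
    rw [Matrix.mul_diagonal, Matrix.transpose_apply]
    have h3 : V o i = ((U o i : ℝ) : ℂ) := rfl
    have h4 : V o i * ((D i : ℂ) - z)⁻¹ * V o i = (((U o i)^2 : ℝ) : ℂ) * ((D i : ℂ) - z)⁻¹ := by
      rw [h3]; push_cast; ring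
    rw [h4, Complex.im_ofReal_mul, Complex.inv_im, Complex.normSq_apply]
    simp only [Complex.sub_im, Complex.sub_re, Complex.ofReal_im, Complex.ofReal_re, zero_sub,
      neg_neg]
    congr 2
    ring
  · intro R hR i
    have h1 : hH'.eigenvalues i ∈ spectrum ℝ H := hH'.eigenvalues_mem_spectrum_real i
    rw [← Matrix.spectrum_toLin', ← Module.End.hasEigenvalue_iff_mem_spectrum] at h1
    obtain ⟨k, hk⟩ := eigenvalue_mem_ball h1
    rw [Metric.mem_closedBall, Real.dist_eq] at hk
    have h2 := hR k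
    rw [← Finset.add_sum_erase _ _ (Finset.mem_univ k)] at h2
    simp only [Real.norm_eq_abs] at hk
    rw [hD]
    have h3 := abs_sub_abs_le_abs_sub (hH'.eigenvalues i) (H k k)
    linarith

end Pool.W_MP_b5ab1b_al
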