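import Pool.Agent.W_MP_b5ab1b_al_h72.Resolvent
import Pool.Agent.W_MP_b5ab1b_al_h72.Spectral
import Pool.Agent.W_MP_b5ab1b_al_h72.Cover

/-! From finite matrices to singular parts. -/

namespace Pool.W_MP_b5ab1b_al

open MeasureTheory

universe u

/-- the moments of `μ` are averages over `ν` of the diagonal entries of powers of finite symmetric
matrices `A + v diag(w)` with `w ≥ 0` bounded below at the base point -/
def Approx (μ ν : Measure ℝ) (L R w0 : ℝ) : Prop :=
  ∀ k : ℕ, ∃ (ι : Type u) (_ : Fintype ι) (_ : DecidableEq ι) (A : Matrix ι ι ℝ) (w : ι → ℝ) (o : ι),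
    A.IsSymm ∧ (∀ i, 0 ≤ w i) ∧ w0 ≤ w o ∧
    (∀ v : ℝ, |v| ≤ L → ∀ i, ∑ j, |(A + v • Matrix.diagonal w) i j| ≤ R) ∧
    ∀ j ≤ k, ∫ x, x^j ∂μ = ∫ v, ((A + v • Matrix.diagonal w)^j) o o ∂ν

theorem shiftM_real {n : Type*} [Fintype n] [DecidableEq n] (A : Matrix n n ℝ) (w : n → ℝ) (z : ℂ)
    (v : ℝ) : shiftM A w z v
      = (A + v • Matrix.diagonal w).map (algebraMap ℝ ℂ) - z • (1 : Matrix n n ℂ) := by
  unfold shiftM
  congr 1
  ext i j
  by_cases hij : i = j
  · subst hij
    simp
  · simp [Matrix.diagonal_apply_ne _ hij]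

theorem continuous_phi_im {n : Type*} [Fintype n] [DecidableEq n] {A : Matrix n n ℝ} (hA : A.IsSymm)
    {w : n → ℝ} (hw : ∀ i, 0 ≤ w i) (o : n) {z : ℂ} (hz : 0 < z.im) :
    Continuous (fun v : ℝ => (phi A w o z v).im) := by
  rw [continuous_iff_continuousAt]
  intro v
  have h1 := (differentiableAt_phi hA hw o hz (v := (v:ℂ)) (by simp)).continuousAt
  exact Complex.continuous_im.continuousAt.comp
    (ContinuousAt.comp (f := fun v : ℝ => (v:ℂ)) h1 Complex.continuous_ofReal.continuousAt)

theorem symm_family {n : Type*} [Fintype n] [DecidableEq n] {A : Matrix n n ℝ} (hA : A.IsSymm)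
    (w : n → ℝ) (v : ℝ) : (A + v • Matrix.diagonal w).IsSymm := by
  apply Matrix.IsSymm.add hA
  exact (Matrix.isSymm_diagonal w).smul v

theorem assembly {μ ν : Measure ℝ} [IsProbabilityMeasure μ] [IsProbabilityMeasure ν] {L R w0 : ℝ}
    (hL : 0 ≤ L) (hw0 : 0 < w0) (hint : ∀ k : ℕ, Integrable (fun x : ℝ => x ^ k) μ)
    (hμ : μ {x | R < |x|} = 0) (hν : ν {v | L < |v|} = 0) (h : Approx.{u} μ ν L R w0) :
    (μ.singularPart volume) Set.univ ≤ (ν.singularPart volume) Set.univ := by
  apply sing_le
  intro K hK hK0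
  have : IsFiniteMeasure (ν.singularPart volume) :=
    isFiniteMeasure_of_le ν (Measure.singularPart_le ν volume)
  suffices hmain : ∀ ε : ℝ, 0 < ε → μ.real K ≤ (ν.singularPart volume).real Set.univ + ε by
    have h1 := le_of_forall_pos_le_add hmain
    rw [Measure.real, Measure.real] at h1
    exact (ENNReal.toReal_le_toReal (measure_ne_top μ K) (measure_ne_top _ _)).1 h1
  intro ε hε
  obtain ⟨δ, hδ, hδY⟩ := min_integral_le ν hL hν (ε := ε/2) (by positivity)
  set C : ℝ := Real.pi * (1 + L^2) / w0 with hC
  have hCpos : 0 < C := by positivity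
  obtain ⟨r, hr, J, hJK, hJ⟩ := exists_grid hK hK0 (δ := δ / C) (by positivity)
  obtain ⟨z, hz⟩ : ∃ z : ℤ → ℂ, z = fun j => ⟨r * (j + 1/2), r/2⟩ := ⟨_, rfl⟩
  have hzre : ∀ j, (z j).re = r * (j + 1/2) := fun j => by rw [hz]
  have hzim : ∀ j, (z j).im = r/2 := fun j => by rw [hz]
  have hzpos : ∀ j, 0 < (z j).im := fun j => by rw [hzim]; positivity
  set s : ℝ → ℝ := fun x => ∑ j ∈ J, r * ((z j).im / ((x - (z j).re)^2 + (z j).im^2)) with hs
  have hsc : Continuous s := by
    simp only [hs]
    apply continuous_finsetSum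
    intro j _
    apply Continuous.mul continuous_const
    apply Continuous.div continuous_const (by fun_prop)
    intro x
    have := hzpos j
    positivity
  have hterm : ∀ x j, 0 ≤ r * ((z j).im / ((x - (z j).re)^2 + (z j).im^2)) := by
    intro x j
    have := hzpos j
    positivity
  have hs0 : ∀ x, 0 ≤ s x := fun x => Finset.sum_nonneg (fun j _ => hterm x j)
  have hsK : ∀ x ∈ K, 1 ≤ s x := by
    intro x hx
    obtain ⟨j, hj, h1, h2⟩ := hJK x hx
    have h3 : 1 ≤ r * ((z j).im / ((x - (z j).re)^2 + (z j).im^2)) := by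
      rw [hzim, hzre, ← mul_div_assoc, le_div_iff₀ (by positivity)]
      have h4 : |x - r * (j + 1/2)| ≤ r/2 := by
        rw [abs_le]
        constructor <;> nlinarith
      have h5 : (x - r * (j + 1/2))^2 ≤ (r/2)^2 := by
        rw [← sq_abs]
        exact pow_le_pow_left₀ (abs_nonneg _) h4 2
      nlinarith
    exact h3.trans (Finset.single_le_sum
      (f := fun j => r * ((z j).im / ((x - (z j).re)^2 + (z j).im^2))) (fun j _ => hterm x j) hj)
  set hh : ℝ → ℝ := fun x => min 1 (s x) with hhh
  have hhc : Continuous hh := continuous_const.min hsc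
  have hh0 : ∀ x, 0 ≤ hh x := fun x => le_min zero_le_one (hs0 x)
  have hh1 : ∀ x, hh x ≤ 1 := fun x => min_le_left _ _
  have hhint : Integrable hh μ :=
    Integrable.of_bound hhc.aestronglyMeasurable 1 (Filter.Eventually.of_forall (fun x => by
      rw [Real.norm_eq_abs, abs_of_nonneg (hh0 x)]; exact hh1 x))
  obtain ⟨p, hp⟩ := exists_polynomial_near_of_continuousOn (-R) R hh hhc.continuousOn (ε/4)
    (by positivity)
  obtain ⟨ι, _, _, A, w, o, hA, hw, hwo, hrow, hmom⟩ := h p.natDegree
  have hwo' : 0 < w o := lt_of_lt_of_le hw0 hwo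
  -- the family
  set H : ℝ → Matrix ι ι ℝ := fun v => A + v • Matrix.diagonal w with hH
  set Y : ℝ → ℝ := fun v => ∑ j ∈ J, r * (phi A w o (z j) v).im with hY
  have hYc : Continuous Y := by
    simp only [hY]
    apply continuous_finsetSum
    intro j _
    exact (continuous_phi_im hA hw o (hzpos j)).const_mul r
  have hY0 : ∀ v, 0 ≤ Y v := fun v => Finset.sum_nonneg (fun j _ =>
    mul_nonneg hr.le (phi_im_nonneg hA hw o (hzpos j) (by simp)))
  have hYint : ∫ v in (-L)..L, Y v ≤ δ := by
    simp only [hY]
    rw [intervalIntegral.integral_finsetSum]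
    · calc ∑ j ∈ J, ∫ v in (-L)..L, r * (phi A w o (z j) v).im
          ≤ ∑ j ∈ J, r * C := by
            apply Finset.sum_le_sum
            intro j _
            rw [intervalIntegral.integral_const_mul]
            apply mul_le_mul_of_nonneg_left _ hr.le
            refine (spectral_averaging hA hw o (hzpos j) hwo' hL).trans ?_
            rw [hC]
            apply div_le_div_of_nonneg_left (by positivity) hw0 hwo
        _ = (r * J.card) * C := by
            rw [Finset.sum_const, nsmul_eq_mul]; ring
        _ ≤ (δ / C) * C := mul_le_mul_of_nonneg_right hJ hCpos.le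
        _ = δ := by field_simp
    · intro j _
      exact ((continuous_phi_im hA hw o (hzpos j)).const_mul r).intervalIntegrable _ _
  have hYν := hδY Y hYc hY0 hYint
  -- pointwise estimates
  have hpt : ∀ v, |v| ≤ L →
      ∑ j ∈ Finset.range (p.natDegree + 1), p.coeff j * (H v ^ j) o o ≤ min 1 (Y v) + ε/4 := by
    intro v hv
    obtain ⟨lam, om, hom, hom1, hpow, hres, hbd⟩ := exists_spectral (H v) (symm_family hA w v) o
    have hlam := hbd R (hrow v hv)
    have e1 : ∑ j ∈ Finset.range (p.natDegree + 1), p.coeff j * (H v ^ j) o o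
        = ∑ i, om i * p.eval (lam i) := by
      simp only [hpow, Polynomial.eval_eq_sum_range, Finset.mul_sum]
      rw [Finset.sum_comm]
      apply Finset.sum_congr rfl
      intro i _
      apply Finset.sum_congr rfl
      intro j _
      ring
    have e2 : ∑ i, om i * p.eval (lam i) ≤ ∑ i, om i * hh (lam i) + ε/4 := by
      have : ∑ i, om i * hh (lam i) + ε/4 = ∑ i, om i * (hh (lam i) + ε/4) := by
        simp only [mul_add, Finset.sum_add_distrib, ← Finset.sum_mul, hom1, one_mul]
      rw [this]
      apply Finset.sum_le_sum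
      intro i _
      apply mul_le_mul_of_nonneg_left _ (hom i)
      have := hp (lam i) (abs_le.1 (hlam i))
      have := (abs_lt.1 this).2
      linarith
    have e3 : ∑ i, om i * hh (lam i) ≤ 1 := by
      rw [← hom1]
      apply Finset.sum_le_sum
      intro i _
      calc om i * hh (lam i) ≤ om i * 1 := mul_le_mul_of_nonneg_left (hh1 _) (hom i)
        _ = om i := mul_one _
    have e4 : ∑ i, om i * hh (lam i) ≤ Y v := by
      have e5 : Y v = ∑ i, om i * s (lam i) := by
        simp only [hY, hs, Finset.mul_sum]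
        rw [Finset.sum_comm]
        apply Finset.sum_congr rfl
        intro j _
        have := hres (z j) (hzpos j)
        rw [phi, shiftM_real, this, Finset.mul_sum]
        apply Finset.sum_congr rfl
        intro i _
        ring
      rw [e5]
      apply Finset.sum_le_sum
      intro i _
      exact mul_le_mul_of_nonneg_left (min_le_right _ _) (hom i)
    rw [e1]
    have := le_min e3 e4
    linarith
  have hR0 : 0 ≤ R := by
    have := hrow 0 (by simpa using hL) o
    exact le_trans (Finset.sum_nonneg (fun _ _ => abs_nonneg _)) this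
  have hbound : ∀ v, |v| ≤ L → ∀ j, |(H v ^ j) o o| ≤ R ^ j := by
    intro v hv j
    obtain ⟨lam, om, hom, hom1, hpow, hres, hbd⟩ := exists_spectral (H v) (symm_family hA w v) o
    have hlam := hbd R (hrow v hv)
    rw [hpow]
    calc |∑ i, om i * lam i ^ j| ≤ ∑ i, |om i * lam i ^ j| := Finset.abs_sum_le_sum_abs _ _
      _ ≤ ∑ i, om i * R ^ j := by
          apply Finset.sum_le_sum
          intro i _
          rw [abs_mul, abs_of_nonneg (hom i), abs_pow]
          exact mul_le_mul_of_nonneg_left (pow_le_pow_left₀ (abs_nonneg _) (hlam i) j) (hom i)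
      _ = R ^ j := by rw [← Finset.sum_mul, hom1, one_mul]
  have hae : ∀ᵐ v ∂ν, |v| ≤ L := by
    rw [ae_iff]
    simpa using hν
  have hHint : ∀ j : ℕ, Integrable (fun v => (H v ^ j) o o) ν := by
    intro j
    apply Integrable.of_bound (C := R ^ j)
    · apply Continuous.aestronglyMeasurable
      have h1 : Continuous H := by
        simp only [hH]
        fun_prop
      exact (h1.pow j).matrix_elem o o
    · filter_upwards [hae] with v hv
      exact hbound v hv j
  -- conclusion
  have hKm : MeasurableSet K := hK.isClosed.measurableSet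
  have s1 : μ.real K ≤ ∫ x, hh x ∂μ := by
    have h1 : ∫ x, K.indicator (fun _ => (1:ℝ)) x ∂μ ≤ ∫ x, hh x ∂μ := by
      apply integral_mono ((integrable_const (1:ℝ)).indicator hKm) hhint
      intro x
      by_cases hx : x ∈ K
      · simp only [Set.indicator_of_mem hx]
        exact le_min le_rfl (hsK x hx)
      · simp only [Set.indicator_of_notMem hx]
        exact hh0 x
    rw [integral_indicator hKm] at h1
    simpa using h1
  have hpint : ∀ j ∈ Finset.range (p.natDegree + 1), Integrable (fun x : ℝ => p.coeff j * x ^ j) μ :=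
    fun j _ => (hint j).const_mul _
  have hpint' : Integrable (fun x : ℝ => p.eval x) μ := by
    simp only [Polynomial.eval_eq_sum_range]
    exact integrable_finsetSum _ hpint
  have s2 : ∫ x, hh x ∂μ ≤ ∫ x, (p.eval x + ε/4) ∂μ := by
    apply integral_mono_ae hhint (hpint'.add (integrable_const _))
    have h2 : ∀ᵐ x ∂μ, |x| ≤ R := by
      rw [ae_iff]
      simpa using hμ
    filter_upwards [h2] with x hx
    have := (abs_lt.1 (hp x (abs_le.1 hx))).1
    show hh x ≤ p.eval x + ε/4
    linarith
  have s3 : ∫ x, (p.eval x + ε/4) ∂μ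
      = ∫ v, (∑ j ∈ Finset.range (p.natDegree + 1), p.coeff j * (H v ^ j) o o) ∂ν + ε/4 := by
    rw [integral_add hpint' (integrable_const _)]
    congr 1
    · simp only [Polynomial.eval_eq_sum_range]
      rw [integral_finsetSum _ hpint, integral_finsetSum _ (fun j _ => (hHint j).const_mul _)]
      apply Finset.sum_congr rfl
      intro j hj
      rw [integral_const_mul, integral_const_mul,
        hmom j (Nat.lt_succ_iff.1 (Finset.mem_range.1 hj))]
    · simp
  have hminint : Integrable (fun v => min 1 (Y v)) ν :=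
    Integrable.of_bound (continuous_const.min hYc).aestronglyMeasurable 1
      (Filter.Eventually.of_forall (fun v => by
        rw [Real.norm_eq_abs, abs_of_nonneg (le_min zero_le_one (hY0 v))]
        exact min_le_left _ _))
  have s4 : ∫ v, (∑ j ∈ Finset.range (p.natDegree + 1), p.coeff j * (H v ^ j) o o) ∂ν
      ≤ ∫ v, (min 1 (Y v) + ε/4) ∂ν := by
    apply integral_mono_ae
    · exact integrable_finsetSum _ (fun j _ => (hHint j).const_mul _)
    · exact hminint.add (integrable_const _)
    · filter_upwards [hae] with v hv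
      exact hpt v hv
  have s5 : ∫ v, (min 1 (Y v) + ε/4) ∂ν = ∫ v, min 1 (Y v) ∂ν + ε/4 := by
    rw [integral_add hminint (integrable_const _)]
    simp
  linarith

end Pool.W_MP_b5ab1b_al
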