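import Mathlib

/-! Definitions for MP_b5ab1b_al (spectral measures of group ring elements). -/

namespace Pool.W_MP_b5ab1b_al

open MeasureTheory

universe u

/-- `Sec` contains `1`, meets every left coset of `L` at most once, is stable under left
multiplication by `G`, and each of its elements `s` either satisfies `L s ⊆ Sec` or centralizes `L`. -/
structure CompatibleSection {Γ : Type u} [Group Γ] (G L : Subgroup Γ) (Sec : Set Γ) : Prop where
  one_mem : (1 : Γ) ∈ Sec
  inj : ∀ s ∈ Sec, ∀ t ∈ Sec, s⁻¹ * t ∈ L → s = t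
  left_mul : ∀ g ∈ G, ∀ s ∈ Sec, g * s ∈ Sec
  alt : ∀ s ∈ Sec, (∀ l ∈ L, l * s ∈ Sec) ∨ (∀ l ∈ L, l * s = s * l)

/-- the element `S + ∑ c(g) g f g⁻¹` of the group ring -/
noncomputable def elt {Γ : Type u} [Group Γ] (S f : MonoidAlgebra ℝ Γ) (c : Γ →₀ ℝ) :
    MonoidAlgebra ℝ Γ :=
  S + ∑ g ∈ c.support, MonoidAlgebra.single g (c g) * f * MonoidAlgebra.single g⁻¹ 1

/-- `μ` is a spectral measure of `T`: its moments are `τ(T^k)`, where `τ` is the coefficient of the
identity -/
def IsSpectralMeasure {Γ : Type u} [Group Γ] (T : MonoidAlgebra ℝ Γ) (μ : Measure ℝ) : Prop :=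
  ∀ k : ℕ, Integrable (fun x : ℝ => x ^ k) μ ∧ ∫ x, x ^ k ∂μ = (T ^ k).coeff 1

/-- the subgroup of the unrestricted permutational wreath product of `D` by `G` over `X` of the
elements whose configuration is trivial on the orbit of `o` -/
def offOrbit {X : Type*} (D : Type*) [Group D] (G : Type*) [Group G] [MulAction G X] (o : X) :
    Subgroup ((X → D) ⋊[mulAutArrow] G) where
  carrier := {γ | ∀ g : G, γ.left (g • o) = 1}
  one_mem' := by
    intro g
    rfl
  mul_mem' := by
    intro a b ha hb g
    have h1 : ((mulAutArrow : G →* MulAut (X → D)) a.right) b.left (g • o)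
        = b.left (a.right⁻¹ • (g • o)) := rfl
    rw [SemidirectProduct.mul_left, Pi.mul_apply, ha g, one_mul, h1, smul_smul]
    exact hb _
  inv_mem' := by
    intro a ha g
    have h1 : ((mulAutArrow : G →* MulAut (X → D)) a.right⁻¹) a.left⁻¹ (g • o)
        = (a.left⁻¹) (a.right⁻¹⁻¹ • (g • o)) := rfl
    rw [SemidirectProduct.inv_left, h1, Pi.inv_apply, smul_smul, ha _, inv_one]

open Classical in
/-- the copy of `D` at the point `o` in the wreath product -/
noncomputable def lamp {X : Type*} (D : Type*) [Group D] (G : Type*) [Group G] [MulAction G X]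
    (o : X) : Subgroup ((X → D) ⋊[mulAutArrow] G) :=
  ((SemidirectProduct.inl : (X → D) →* (X → D) ⋊[mulAutArrow] G).comp
    (MonoidHom.mulSingle (fun _ : X => D) o)).range

end Pool.W_MP_b5ab1b_al
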