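import Pool.Agent.W_MP_b5ab1b_al_h72.Algebra

/-! The action of `S + ∑ c(g) g f g⁻¹` on combinations of the elements `s P(f)`, `s ∈ Sec`. -/

namespace Pool.W_MP_b5ab1b_al

open Polynomial

universe u

variable {Γ : Type u} [Group Γ]

open Classical in
/-- the column of index `t` -/
noncomputable def col (L : Subgroup Γ) (S f : MonoidAlgebra ℝ Γ) (c : Γ →₀ ℝ) (t : Γ) :
    Γ →₀ ℝ[X] :=
  (∑ h ∈ S.coeff.support, Finsupp.single (h * t) (C (S.coeff h)))
    + ∑ g ∈ c.support, if Comm L (g⁻¹ * t) then Finsupp.single t (C (c g) * X)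
      else ∑ l ∈ f.coeff.support, Finsupp.single (g * l * g⁻¹ * t) (C (c g * f.coeff l))

omit [Group Γ] in
theorem sum_single_eq {R : Type*} [Semiring R] (x : Γ →₀ R) (N : Type*) [AddCommMonoid N]
    (φ : R → N) (hφ : φ 0 = 0) (e : Γ → Γ) (a s : Γ) (he : ∀ h, e h = s ↔ h = a) :
    (∑ h ∈ x.support, Finsupp.single (e h) (φ (x h))) s = φ (x a) := by
  classical
  rw [Finsupp.finsetSum_apply]
  simp only [Finsupp.single_apply, he]
  rw [Finset.sum_ite_eq']
  split_ifs with h
  · rfl
  · rw [Finsupp.notMem_support_iff.1 h, hφ]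

open Classical in
theorem col_apply (L : Subgroup Γ) (S f : MonoidAlgebra ℝ Γ) (c : Γ →₀ ℝ) (t s : Γ) :
    col L S f c t s = C (aM L S f c s t) + (if s = t then C (wM L c t) * X else 0) := by
  unfold col aM wM
  rw [Finsupp.add_apply]
  have h1 : (∑ h ∈ S.coeff.support, Finsupp.single (h * t) (C (S.coeff h))) s
      = C (S.coeff (s * t⁻¹)) := by
    apply sum_single_eq S.coeff ℝ[X] C (map_zero _) (fun h => h * t)
    intro h
    constructor
    · rintro rfl; group
    · rintro rfl; group
  have h2 : ∀ g, (if Comm L (g⁻¹ * t) then Finsupp.single t (C (c g) * X)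
      else ∑ l ∈ f.coeff.support, Finsupp.single (g * l * g⁻¹ * t) (C (c g * f.coeff l))) s
      = C (if Comm L (g⁻¹ * t) then 0 else c g * f.coeff (g⁻¹ * s * t⁻¹ * g))
        + (if s = t then C (if Comm L (g⁻¹ * t) then c g else 0) * X else 0) := by
    intro g
    by_cases hg : Comm L (g⁻¹ * t)
    · simp only [if_pos hg, map_zero, zero_add]
      rw [Finsupp.single_apply]
      by_cases hst : s = t
      · rw [if_pos hst, if_pos hst.symm]
      · rw [if_neg hst, if_neg (fun h => hst h.symm)]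
    · simp only [if_neg hg, map_zero, zero_mul, ite_self, add_zero]
      apply sum_single_eq f.coeff ℝ[X] (fun b => C (c g * b)) (by simp) (fun l => g * l * g⁻¹ * t)
      intro l
      constructor
      · rintro rfl; group
      · rintro rfl; group
  rw [h1, Finsupp.finsetSum_apply]
  simp only [h2]
  rw [Finset.sum_add_distrib, ← add_assoc]
  congr 1
  · rw [map_add, map_sum]
  · by_cases hst : s = t
    · simp only [if_pos hst]
      rw [map_sum, Finset.sum_mul]
    · simp only [if_neg hst, Finset.sum_const_zero]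

/-- the additive map `∑ s ⊗ P ↦ ∑ s P(f)` -/
noncomputable def Phi (f : MonoidAlgebra ℝ Γ) : (Γ →₀ ℝ[X]) →+ MonoidAlgebra ℝ Γ :=
  Finsupp.liftAddHom (fun s => (AddMonoidHom.mulLeft (MonoidAlgebra.single s 1)).comp
    ((aeval f : ℝ[X] →ₐ[ℝ] MonoidAlgebra ℝ Γ) : ℝ[X] →+ MonoidAlgebra ℝ Γ))

theorem Phi_single (f : MonoidAlgebra ℝ Γ) (s : Γ) (q : ℝ[X]) :
    Phi f (Finsupp.single s q) = MonoidAlgebra.single s 1 * aeval f q := by
  unfold Phi
  rw [Finsupp.liftAddHom_apply_single]
  rfl

theorem Phi_eq_sum (f : MonoidAlgebra ℝ Γ) (η : Γ →₀ ℝ[X]) :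
    Phi f η = ∑ s ∈ η.support, MonoidAlgebra.single s 1 * aeval f (η s) := by
  unfold Phi
  rw [Finsupp.liftAddHom_apply]
  rfl

theorem Phi_single_mul_C (f : MonoidAlgebra ℝ Γ) (s : Γ) (q : ℝ[X]) (a : ℝ) :
    Phi f (Finsupp.single s (q * C a)) = MonoidAlgebra.single s a * aeval f q := by
  rw [Phi_single, map_mul, aeval_C, ← Algebra.commutes, ← Algebra.smul_def, mul_smul_comm,
    ← smul_mul_assoc, MonoidAlgebra.smul_single, smul_eq_mul, mul_one]

/-- a group element centralizing `L` commutes with the elements supported in `L` -/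
theorem single_comm {L : Subgroup Γ} {f : MonoidAlgebra ℝ Γ} (hfL : ∀ g ∈ f.coeff.support, g ∈ L)
    {x : Γ} (hx : Comm L x) : f * MonoidAlgebra.single x 1 = MonoidAlgebra.single x 1 * f := by
  have h : f = ∑ l ∈ f.coeff.support, MonoidAlgebra.single l (f.coeff l) :=
    (MonoidAlgebra.sum_coeff_single f).symm
  rw [h, Finset.sum_mul, Finset.mul_sum]
  apply Finset.sum_congr rfl
  intro l hl
  rw [MonoidAlgebra.single_mul_single, MonoidAlgebra.single_mul_single, hx l (hfL l hl), mul_one,
    one_mul]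

theorem Phi_col {L : Subgroup Γ} (S : MonoidAlgebra ℝ Γ) {f : MonoidAlgebra ℝ Γ} (c : Γ →₀ ℝ)
    (hfL : ∀ g ∈ f.coeff.support, g ∈ L) (t : Γ) (q : ℝ[X]) :
    Phi f (q • col L S f c t) = elt S f c * (MonoidAlgebra.single t 1 * aeval f q) := by
  classical
  unfold col elt
  rw [smul_add, map_add, add_mul]
  congr 1
  · rw [Finset.smul_sum, map_sum]
    conv_rhs => rw [← MonoidAlgebra.sum_coeff_single S]
    rw [Finsupp.sum, Finset.sum_mul]
    apply Finset.sum_congr rfl
    intro h _
    rw [Finsupp.smul_single, smul_eq_mul, Phi_single_mul_C, ← mul_assoc,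
      MonoidAlgebra.single_mul_single, mul_one]
  · rw [Finset.smul_sum, map_sum, Finset.sum_mul]
    apply Finset.sum_congr rfl
    intro g _
    by_cases hg : Comm L (g⁻¹ * t)
    · rw [if_pos hg, Finsupp.smul_single, smul_eq_mul, Phi_single, ← mul_assoc q, map_mul, aeval_X,
        map_mul, aeval_C]
      have h1 : MonoidAlgebra.single g (c g) * f * MonoidAlgebra.single g⁻¹ 1 *
          (MonoidAlgebra.single t 1 * aeval f q)
          = MonoidAlgebra.single g (c g) * (f * MonoidAlgebra.single (g⁻¹ * t) 1) * aeval f q := by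
        have : (MonoidAlgebra.single (g⁻¹ * t) 1 : MonoidAlgebra ℝ Γ)
            = MonoidAlgebra.single g⁻¹ 1 * MonoidAlgebra.single t 1 := by
          rw [MonoidAlgebra.single_mul_single, one_mul]
        rw [this]
        simp only [mul_assoc]
      have h2 : f * aeval f q = aeval f q * f := by
        have h3 : f * aeval f q = aeval f (X * q) := by rw [map_mul, aeval_X]
        have h4 : aeval f q * f = aeval f (q * X) := by rw [map_mul, aeval_X]
        rw [h3, h4, mul_comm]
      have h5 : (MonoidAlgebra.single t (c g) : MonoidAlgebra ℝ Γ)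
          = c g • MonoidAlgebra.single t 1 := by
        rw [MonoidAlgebra.smul_single, smul_eq_mul, mul_one]
      rw [h1, single_comm hfL hg, ← mul_assoc (MonoidAlgebra.single g (c g)),
        MonoidAlgebra.single_mul_single, mul_one, mul_inv_cancel_left, mul_assoc _ f, h2, h5,
        ← Algebra.commutes, ← Algebra.smul_def]
      simp only [smul_mul_assoc, mul_smul_comm]
    · rw [if_neg hg, Finset.smul_sum, map_sum]
      have hf : f = ∑ l ∈ f.coeff.support, MonoidAlgebra.single l (f.coeff l) :=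
        (MonoidAlgebra.sum_coeff_single f).symm
      have h1 : MonoidAlgebra.single g (c g) * f * MonoidAlgebra.single g⁻¹ 1
          = ∑ l ∈ f.coeff.support, MonoidAlgebra.single (g * l * g⁻¹) (c g * f.coeff l) := by
        conv_lhs => rw [hf]
        rw [Finset.mul_sum, Finset.sum_mul]
        apply Finset.sum_congr rfl
        intro l _
        rw [MonoidAlgebra.single_mul_single, MonoidAlgebra.single_mul_single, mul_one]
      rw [h1, Finset.sum_mul]
      apply Finset.sum_congr rfl
      intro l _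
      rw [Finsupp.smul_single, smul_eq_mul, Phi_single_mul_C, ← mul_assoc,
        MonoidAlgebra.single_mul_single, mul_one]

theorem col_support {G L : Subgroup Γ} {Sec : Set Γ} (h : CompatibleSection G L Sec)
    {S f : MonoidAlgebra ℝ Γ} {c : Γ →₀ ℝ} (hSG : ∀ g ∈ S.coeff.support, g ∈ G)
    (hfL : ∀ g ∈ f.coeff.support, g ∈ L)
    (hcG : ∀ g ∈ c.support, g ∈ G) {t s : Γ} (ht : t ∈ Sec) (hs : col L S f c t s ≠ 0) :
    s ∈ Sec := by
  classical
  unfold col at hs
  rw [Finsupp.add_apply, Finsupp.finsetSum_apply, Finsupp.finsetSum_apply] at hs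
  by_contra hsS
  apply hs
  have h1 : ∑ k ∈ S.coeff.support, (Finsupp.single (k * t) (C (S.coeff k))) s = 0 := by
    apply Finset.sum_eq_zero
    intro k hk
    rw [Finsupp.single_apply, if_neg]
    rintro rfl
    exact hsS (h.left_mul k (hSG k hk) t ht)
  rw [h1, zero_add]
  apply Finset.sum_eq_zero
  intro g hg
  by_cases hc : Comm L (g⁻¹ * t)
  · rw [if_pos hc, Finsupp.single_apply, if_neg]
    rintro rfl
    exact hsS ht
  · rw [if_neg hc, Finsupp.finsetSum_apply]
    apply Finset.sum_eq_zero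
    intro l hl
    rw [Finsupp.single_apply, if_neg]
    rintro rfl
    apply hsS
    have h2 : g⁻¹ * t ∈ Sec := h.left_mul _ (G.inv_mem (hcG g hg)) _ ht
    rcases h.alt _ h2 with h3 | h3
    · have h4 := h.left_mul g (hcG g hg) _ (h3 l (hfL l hl))
      have h5 : g * l * g⁻¹ * t = g * (l * (g⁻¹ * t)) := by group
      rw [h5]
      exact h4
    · exact absurd h3 hc

/-- the operator on finitely supported families of polynomials -/
noncomputable def That (L : Subgroup Γ) (S f : MonoidAlgebra ℝ Γ) (c : Γ →₀ ℝ) (η : Γ →₀ ℝ[X]) :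
    Γ →₀ ℝ[X] :=
  ∑ t ∈ η.support, η t • col L S f c t

/-- the orbit of the base point -/
noncomputable def orb (L : Subgroup Γ) (S f : MonoidAlgebra ℝ Γ) (c : Γ →₀ ℝ) (g0 : Γ) :
    ℕ → (Γ →₀ ℝ[X])
  | 0 => Finsupp.single g0 1
  | j+1 => That L S f c (orb L S f c g0 j)

theorem orb_support {G L : Subgroup Γ} {Sec : Set Γ} (h : CompatibleSection G L Sec)
    {S f : MonoidAlgebra ℝ Γ} {c : Γ →₀ ℝ} (hSG : ∀ g ∈ S.coeff.support, g ∈ G)
    (hfL : ∀ g ∈ f.coeff.support, g ∈ L)
    (hcG : ∀ g ∈ c.support, g ∈ G) {g0 : Γ} (hg0 : g0 ∈ Sec) (j : ℕ) :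
    ∀ s ∈ (orb L S f c g0 j).support, s ∈ Sec := by
  classical
  induction j with
  | zero =>
    intro s hs
    have := Finsupp.support_single_subset hs
    rw [Finset.mem_singleton] at this
    rw [this]; exact hg0
  | succ j ih =>
    intro s hs
    rw [Finsupp.mem_support_iff] at hs
    simp only [orb, That] at hs
    rw [Finsupp.finsetSum_apply] at hs
    obtain ⟨t, ht, hts⟩ := Finset.exists_ne_zero_of_sum_ne_zero hs
    rw [Finsupp.smul_apply, smul_eq_mul] at hts
    exact col_support h hSG hfL hcG (ih t ht) (right_ne_zero_of_mul hts)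

theorem Phi_orb {L : Subgroup Γ} (S : MonoidAlgebra ℝ Γ) {f : MonoidAlgebra ℝ Γ} (c : Γ →₀ ℝ)
    (hfL : ∀ g ∈ f.coeff.support, g ∈ L) (g0 : Γ) (j : ℕ) :
    Phi f (orb L S f c g0 j) = elt S f c ^ j * MonoidAlgebra.single g0 1 := by
  induction j with
  | zero => simp only [orb]; rw [Phi_single, map_one, mul_one, pow_zero, one_mul]
  | succ j ih =>
    simp only [orb, That]
    rw [map_sum]
    simp only [Phi_col S c hfL]
    rw [← Finset.mul_sum, ← Phi_eq_sum, ih, pow_succ', mul_assoc]

open Classical in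
theorem orb_succ_eval (L : Subgroup Γ) (S f : MonoidAlgebra ℝ Γ) (c : Γ →₀ ℝ) (g0 : Γ) (j : ℕ)
    {F : Finset Γ} (hF : (orb L S f c g0 j).support ⊆ F) (s : Γ) (v : ℝ) :
    ((orb L S f c g0 (j+1)) s).eval v
      = ∑ t ∈ F, (aM L S f c s t + if s = t then v * wM L c t else 0)
        * ((orb L S f c g0 j) t).eval v := by
  simp only [orb, That]
  rw [Finsupp.finsetSum_apply, eval_finsetSum]
  rw [← Finset.sum_subset hF]
  · apply Finset.sum_congr rfl
    intro t _
    rw [Finsupp.smul_apply, smul_eq_mul, col_apply, eval_mul, mul_comm, eval_add, eval_C]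
    congr 2
    split_ifs
    · rw [eval_mul, eval_C, eval_X, mul_comm]
    · rw [eval_zero]
  · intro t _ ht
    rw [Finsupp.notMem_support_iff.1 ht, eval_zero, mul_zero]

/-- the subalgebra of elements supported in `L` -/
def suppAlg (L : Subgroup Γ) : Subalgebra ℝ (MonoidAlgebra ℝ Γ) where
  carrier := {x | ∀ g, g ∉ L → x.coeff g = 0}
  mul_mem' := by
    classical
    intro x y hx hy g hg
    rw [MonoidAlgebra.coeff_mul]
    apply Finset.sum_eq_zero
    intro a ha
    apply Finset.sum_eq_zero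
    intro b hb
    simp only
    rw [if_neg]
    rintro rfl
    apply hg
    apply L.mul_mem
    · by_contra h
      exact (Finsupp.mem_support_iff.1 ha) (hx a h)
    · by_contra h
      exact (Finsupp.mem_support_iff.1 hb) (hy b h)
  add_mem' := by
    intro x y hx hy g hg
    rw [MonoidAlgebra.coeff_add, Finsupp.add_apply, hx g hg, hy g hg, add_zero]
  algebraMap_mem' := by
    classical
    intro r g hg
    rw [MonoidAlgebra.coe_algebraMap, Function.comp_apply, MonoidAlgebra.coeff_single,
      Finsupp.single_apply, if_neg]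
    rintro rfl
    exact hg L.one_mem

theorem aeval_supp {L : Subgroup Γ} {f : MonoidAlgebra ℝ Γ} (hfL : ∀ g ∈ f.coeff.support, g ∈ L)
    (q : ℝ[X]) {g : Γ} (hg : g ∉ L) : (aeval f q).coeff g = 0 := by
  have h1 : f ∈ suppAlg L := by
    intro g hg
    by_contra h
    exact hg (hfL g (Finsupp.mem_support_iff.2 h))
  have h2 : aeval f q ∈ suppAlg L := by
    have h3 := aeval_mem_adjoin_singleton ℝ f (p := q)
    exact Algebra.adjoin_le (S := suppAlg L) (Set.singleton_subset_iff.2 h1) h3
  exact h2 g hg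

theorem Phi_coeff {G L : Subgroup Γ} {Sec : Set Γ} (h : CompatibleSection G L Sec)
    {f : MonoidAlgebra ℝ Γ} (hfL : ∀ g ∈ f.coeff.support, g ∈ L) {g0 : Γ} (hg0 : g0 ∈ Sec)
    {η : Γ →₀ ℝ[X]} (hη : ∀ s ∈ η.support, s ∈ Sec) :
    (Phi f η).coeff g0 = (aeval f (η g0)).coeff 1 := by
  classical
  rw [Phi_eq_sum, MonoidAlgebra.coeff_sum, Finsupp.finsetSum_apply]
  have h1 : ∀ s, (MonoidAlgebra.single s (1:ℝ) * aeval f (η s)).coeff g0
      = (aeval f (η s)).coeff (s⁻¹ * g0) := by
    intro s
    rw [MonoidAlgebra.coeff_single_mul_eq_mul_coeff (s⁻¹ * g0), one_mul]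
    intro m _
    rw [eq_inv_mul_iff_mul_eq]
  simp only [h1]
  rw [Finset.sum_eq_single g0]
  · rw [inv_mul_cancel]
  · intro s hs hne
    apply aeval_supp hfL
    intro hmem
    exact hne (h.inj s (hη s hs) g0 hg0 hmem)
  · intro hn
    rw [Finsupp.notMem_support_iff.1 hn, map_zero]
    rfl

end Pool.W_MP_b5ab1b_al
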