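import Pool.Agent.W_MP_b5ab1b_al_h72.Iterate
import Pool.Agent.W_MP_b5ab1b_al_h72.Assembly

/-! The main theorem. -/

namespace Pool.W_MP_b5ab1b_al

open MeasureTheory Polynomial

universe u

variable {Γ : Type u} [Group Γ]

theorem IsSpectralMeasure.isProbabilityMeasure {T : MonoidAlgebra ℝ Γ} {μ : Measure ℝ}
    (h : IsSpectralMeasure T μ) : IsProbabilityMeasure μ := by
  obtain ⟨h1, h2⟩ := h 0
  simp only [pow_zero, MonoidAlgebra.coeff_one_one] at h1 h2
  have hfin : IsFiniteMeasure μ := (integrable_const_iff_isFiniteMeasure one_ne_zero).1 h1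
  constructor
  rw [integral_const, smul_eq_mul, mul_one] at h2
  rw [Measure.real, ENNReal.toReal_eq_one_iff] at h2
  exact h2

theorem IsSpectralMeasure.supp {T : MonoidAlgebra ℝ Γ} {μ : Measure ℝ}
    (h : IsSpectralMeasure T μ) {R : ℝ} (hR : N1 T ≤ R) : μ {x | R < |x|} = 0 := by
  have hR0 : 0 ≤ R := (N1_nonneg T).trans hR
  apply supp_of_moments (fun k => (h k).1) (C := 1) hR0
  intro k
  rw [(h (2*k)).2, one_mul]
  exact (le_abs_self _).trans ((abs_coeff_le_N1 _ _).trans ((N1_pow T _).trans
    (pow_le_pow_left₀ (N1_nonneg T) hR _)))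

theorem IsSpectralMeasure.aeval_coeff {f : MonoidAlgebra ℝ Γ} {ν : Measure ℝ}
    (h : IsSpectralMeasure f ν) (q : ℝ[X]) : (aeval f q).coeff 1 = ∫ v, q.eval v ∂ν := by
  rw [aeval_eq_sum_range]
  simp only [eval_eq_sum_range]
  rw [integral_finsetSum _ (fun j _ => ((h j).1.const_mul _)), MonoidAlgebra.coeff_sum,
    Finsupp.finsetSum_apply]
  apply Finset.sum_congr rfl
  intro j _
  rw [integral_const_mul, (h j).2, MonoidAlgebra.coeff_smul, Finsupp.smul_apply, smul_eq_mul]

theorem approx_of_spectral {G L : Subgroup Γ} {Sec : Set Γ} (h : CompatibleSection G L Sec)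
    {S f : MonoidAlgebra ℝ Γ} {c : Γ →₀ ℝ} (hS : ∀ g, S.coeff g⁻¹ = S.coeff g)
    (hf : ∀ g, f.coeff g⁻¹ = f.coeff g) (hSG : ∀ g ∈ S.coeff.support, g ∈ G)
    (hfL : ∀ g ∈ f.coeff.support, g ∈ L)
    (hcG : ∀ g ∈ c.support, g ∈ G) (hc : ∀ g, 0 ≤ c g) {g0 : Γ} (hg0 : g0 ∈ c.support)
    {μ ν : Measure ℝ} (hμ : IsSpectralMeasure (elt S f c) μ) (hν : IsSpectralMeasure f ν)
    {r R : ℝ} (hr : 0 ≤ r)
    (hR : N1 S + (∑ g ∈ c.support, c g) * N1 f + r * ∑ g ∈ c.support, c g ≤ R) :
    Approx.{u} μ ν r R (c g0) := by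
  classical
  intro k
  have hg0S : g0 ∈ Sec := by
    have := h.left_mul g0 (hcG g0 hg0) 1 h.one_mem
    rwa [mul_one] at this
  set F : Finset Γ := insert g0 ((Finset.range (k+1)).biUnion
    (fun j => (orb L S f c g0 j).support)) with hF
  have hFS : ∀ s ∈ F, s ∈ Sec := by
    intro s hs
    rw [hF, Finset.mem_insert] at hs
    rcases hs with rfl | hs
    · exact hg0S
    · obtain ⟨j, _, hj⟩ := Finset.mem_biUnion.1 hs
      exact orb_support h hSG hfL hcG hg0S j s hj
  have horb : ∀ j ≤ k, (orb L S f c g0 j).support ⊆ F := by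
    intro j hj s hs
    rw [hF, Finset.mem_insert]
    right
    exact Finset.mem_biUnion.2 ⟨j, Finset.mem_range.2 (Nat.lt_succ_of_le hj), hs⟩
  have hentry : ∀ (v : ℝ) (s t : F), ((Matrix.of (fun s t : F => aM L S f c s t))
      + v • Matrix.diagonal (fun t : F => wM L c t)) s t
      = aM L S f c s t + if (s:Γ) = t then v * wM L c t else 0 := by
    intro v s t
    rw [Matrix.add_apply, Matrix.of_apply, Matrix.smul_apply, Matrix.diagonal_apply]
    congr 1
    by_cases hst : s = t
    · subst hst
      simp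
    · have : (s:Γ) ≠ t := fun h => hst (Subtype.ext h)
      simp [hst, this]
  refine ⟨F, inferInstance, inferInstance, Matrix.of (fun s t : F => aM L S f c s t),
    fun t => wM L c t, ⟨g0, Finset.mem_insert_self _ _⟩, ?_, ?_, ?_, ?_, ?_⟩
  · ext s t
    simp only [Matrix.transpose_apply, Matrix.of_apply]
    exact aM_symm h hS hf hfL hcG (hFS t t.2) (hFS s s.2)
  · intro t
    exact wM_nonneg L hc t
  · exact le_wM_self L hc hg0
  · intro v hv s
    simp only [hentry]
    have h1 : ∀ t : F, |aM L S f c s t + if (s:Γ) = t then v * wM L c t else 0|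
        ≤ |aM L S f c s t| + if (s:Γ) = t then r * ∑ g ∈ c.support, c g else 0 := by
      intro t
      refine (abs_add_le _ _).trans ?_
      apply add_le_add le_rfl
      split_ifs
      · rw [abs_mul, abs_of_nonneg (wM_nonneg L hc _)]
        exact mul_le_mul hv (wM_le L c hc _) (wM_nonneg L hc _) hr
      · rw [abs_zero]
    refine (Finset.sum_le_sum (fun t _ => h1 t)).trans ?_
    rw [Finset.sum_add_distrib]
    refine le_trans (add_le_add ?_ ?_) hR
    · have := row_sum_le L S f c hc F s
      rw [← Finset.sum_coe_sort F (fun t => |aM L S f c s t|)] at this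
      exact this
    · have : ∑ t : F, (if (s:Γ) = t then r * ∑ g ∈ c.support, c g else 0)
          = r * ∑ g ∈ c.support, c g := by
        rw [Finset.sum_eq_single s]
        · rw [if_pos rfl]
        · intro t _ hts
          rw [if_neg]
          intro h
          exact hts (Subtype.ext h.symm)
        · intro hn
          exact absurd (Finset.mem_univ s) hn
      rw [this]
  · intro j hj
    set o : F := ⟨g0, Finset.mem_insert_self _ _⟩ with ho
    set H : ℝ → Matrix F F ℝ := fun v => (Matrix.of (fun s t : F => aM L S f c s t))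
      + v • Matrix.diagonal (fun t : F => wM L c t) with hH
    have hpow : ∀ (v : ℝ) (i : ℕ), i ≤ k → ∀ s : F,
        (H v ^ i) s o = ((orb L S f c g0 i) s).eval v := by
      intro v i
      induction i with
      | zero =>
        intro _ s
        rw [pow_zero, Matrix.one_apply]
        simp only [orb]
        rw [Finsupp.single_apply]
        by_cases hs : s = o
        · have : g0 = (s:Γ) := by rw [hs]
          rw [if_pos hs, if_pos this, eval_one]
        · have : ¬ (g0 = (s:Γ)) := fun h => hs (Subtype.ext h.symm)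
          rw [if_neg hs, if_neg this, eval_zero]
      | succ i ih =>
        intro hi s
        rw [pow_succ', Matrix.mul_apply, orb_succ_eval L S f c g0 i (horb i (by omega)) s v,
          ← Finset.sum_coe_sort F]
        apply Finset.sum_congr rfl
        intro t _
        rw [ih (by omega) t]
        congr 1
        exact hentry v s t
    have h1 : (elt S f c ^ j).coeff 1 = (aeval f ((orb L S f c g0 j) g0)).coeff 1 := by
      rw [← Phi_coeff h hfL hg0S (orb_support h hSG hfL hcG hg0S j), Phi_orb S c hfL g0 j,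
        MonoidAlgebra.coeff_mul_single_eq_coeff_mul 1, mul_one]
      intro m _
      constructor
      · intro hm
        exact mul_eq_right.1 hm
      · rintro rfl
        exact one_mul _
    rw [(hμ j).2, h1, hν.aeval_coeff]
    apply integral_congr_ae
    apply Filter.Eventually.of_forall
    intro v
    exact (hpow v j hj o).symm

/-- **Main theorem**: the singular part of the spectral measure of `S + ∑ c(g) g f g⁻¹` is not larger
than that of the spectral measure of `f`. -/
theorem main_theorem {G L : Subgroup Γ} {Sec : Set Γ} (h : CompatibleSection G L Sec)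
    {S f : MonoidAlgebra ℝ Γ} {c : Γ →₀ ℝ} (hS : ∀ g, S.coeff g⁻¹ = S.coeff g)
    (hf : ∀ g, f.coeff g⁻¹ = f.coeff g) (hSG : ∀ g ∈ S.coeff.support, g ∈ G)
    (hfL : ∀ g ∈ f.coeff.support, g ∈ L)
    (hcG : ∀ g ∈ c.support, g ∈ G) (hc : ∀ g, 0 ≤ c g) (hc0 : c ≠ 0)
    {μ ν : Measure ℝ} (hμ : IsSpectralMeasure (elt S f c) μ) (hν : IsSpectralMeasure f ν) :
    (μ.singularPart volume) Set.univ ≤ (ν.singularPart volume) Set.univ := by
  obtain ⟨g0, hg0⟩ := Finsupp.support_nonempty_iff.2 hc0
  have := hμ.isProbabilityMeasure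
  have := hν.isProbabilityMeasure
  have hpos : 0 < c g0 := lt_of_le_of_ne (hc g0) (Ne.symm (Finsupp.mem_support_iff.1 hg0))
  have hr : 0 ≤ N1 f := N1_nonneg f
  set R := max (N1 (elt S f c)) (N1 S + (∑ g ∈ c.support, c g) * N1 f
    + N1 f * ∑ g ∈ c.support, c g) with hRdef
  have happ := approx_of_spectral h hS hf hSG hfL hcG hc hg0 hμ hν hr (le_max_right _ _ : _ ≤ R)
  exact assembly hr hpos (fun k => (hμ k).1) (hμ.supp (le_max_left _ _)) (hν.supp le_rfl) happ

end Pool.W_MP_b5ab1b_al
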