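import Mathlib

/-! Averaging of a resolvent entry of `A + v diag(w)` over the coupling `v`. -/

namespace Pool.W_MP_b5ab1b_al

open Matrix MeasureTheory

variable {n : Type*} [Fintype n] [DecidableEq n]

/-- the complex matrix `A + v diag(w) - z` -/
noncomputable def shiftM (A : Matrix n n ℝ) (w : n → ℝ) (z v : ℂ) : Matrix n n ℂ :=
  A.map (algebraMap ℝ ℂ) + v • Matrix.diagonal (fun i => (w i : ℂ)) - z • (1 : Matrix n n ℂ)

/-- the diagonal matrix element of the resolvent -/
noncomputable def phi (A : Matrix n n ℝ) (w : n → ℝ) (o : n) (z v : ℂ) : ℂ :=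
  (shiftM A w z v)⁻¹ o o

omit [Fintype n] [DecidableEq n] in
theorem map_isHermitian {A : Matrix n n ℝ} (hA : A.IsSymm) :
    (A.map (algebraMap ℝ ℂ)).IsHermitian := by
  ext i j
  simp [Matrix.conjTranspose_apply, hA.apply i j]

theorem im_form {A : Matrix n n ℝ} (hA : A.IsSymm) (w : n → ℝ) (z v : ℂ) (x : n → ℂ) :
    (star x ⬝ᵥ (shiftM A w z v *ᵥ x)).im
      = v.im * ∑ i, w i * Complex.normSq (x i) - z.im * ∑ i, Complex.normSq (x i) := by
  have h1 : (star x ⬝ᵥ ((A.map (algebraMap ℝ ℂ)) *ᵥ x)).im = 0 :=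
    (map_isHermitian hA).im_star_dotProduct_mulVec_self x
  have h2 : star x ⬝ᵥ ((Matrix.diagonal (fun i => (w i : ℂ))) *ᵥ x)
      = ((∑ i, w i * Complex.normSq (x i) : ℝ) : ℂ) := by
    simp only [dotProduct, Matrix.mulVec_diagonal, Pi.star_apply, Complex.ofReal_sum,
      Complex.ofReal_mul]
    apply Finset.sum_congr rfl
    intro i _
    rw [Complex.normSq_eq_conj_mul_self]
    simp only [RCLike.star_def]
    ring
  have h3 : star x ⬝ᵥ ((1 : Matrix n n ℂ) *ᵥ x) = ((∑ i, Complex.normSq (x i) : ℝ) : ℂ) := by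
    simp only [dotProduct, Matrix.one_mulVec, Pi.star_apply, Complex.ofReal_sum]
    apply Finset.sum_congr rfl
    intro i _
    rw [Complex.normSq_eq_conj_mul_self]
    simp only [RCLike.star_def]
  unfold shiftM
  rw [Matrix.sub_mulVec, Matrix.add_mulVec, Matrix.smul_mulVec, Matrix.smul_mulVec,
    dotProduct_sub, dotProduct_add, dotProduct_smul, dotProduct_smul, h2, h3]
  simp only [Complex.sub_im, Complex.add_im, h1, smul_eq_mul, Complex.mul_im, Complex.ofReal_re,
    Complex.ofReal_im]
  ring

theorem det_ne_zero {A : Matrix n n ℝ} (hA : A.IsSymm) {w : n → ℝ} (hw : ∀ i, 0 ≤ w i) {z v : ℂ}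
    (hz : 0 < z.im) (hv : v.im ≤ 0) : (shiftM A w z v).det ≠ 0 := by
  intro h
  obtain ⟨x, hx0, hx⟩ := Matrix.exists_mulVec_eq_zero_iff.2 h
  have h1 := im_form hA w z v x
  rw [hx, dotProduct_zero, Complex.zero_im] at h1
  have h2 : 0 ≤ ∑ i, w i * Complex.normSq (x i) :=
    Finset.sum_nonneg (fun i _ => mul_nonneg (hw i) (Complex.normSq_nonneg _))
  have h3 : 0 < ∑ i, Complex.normSq (x i) := by
    obtain ⟨i, hi⟩ := Function.ne_iff.1 hx0
    exact Finset.sum_pos' (fun i _ => Complex.normSq_nonneg _)
      ⟨i, Finset.mem_univ i, Complex.normSq_pos.2 hi⟩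
  nlinarith [mul_pos hz h3, mul_nonneg (neg_nonneg.2 hv) h2]

/-- the basic inequality for the resolvent entry -/
theorem phi_ineq {A : Matrix n n ℝ} (hA : A.IsSymm) {w : n → ℝ} (hw : ∀ i, 0 ≤ w i) (o : n)
    {z v : ℂ} (hz : 0 < z.im) (hv : v.im ≤ 0) :
    (z.im - v.im * w o) * Complex.normSq (phi A w o z v) ≤ (phi A w o z v).im := by
  have hdet := det_ne_zero hA hw hz hv
  set M := shiftM A w z v with hM
  set x : n → ℂ := fun i => M⁻¹ i o with hx
  have hMx : M *ᵥ x = Pi.single o 1 := by
    ext i
    have : (M * M⁻¹) i o = (1 : Matrix n n ℂ) i o := by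
      rw [Matrix.mul_nonsing_inv M (isUnit_iff_ne_zero.2 hdet)]
    rw [Matrix.mul_apply] at this
    rw [Matrix.mulVec, dotProduct, this, Matrix.one_apply, Pi.single_apply]
  have h1 := im_form hA w z v x
  rw [← hM, hMx, dotProduct_single_one] at h1
  have h2 : (star x o).im = - (phi A w o z v).im := by
    simp [hx, phi, hM]
  rw [h2] at h1
  have h3 : Complex.normSq (phi A w o z v) ≤ ∑ i, Complex.normSq (x i) := by
    have := Finset.single_le_sum (f := fun i => Complex.normSq (x i))
      (fun i _ => Complex.normSq_nonneg _) (Finset.mem_univ o)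
    exact this
  have h4 : w o * Complex.normSq (phi A w o z v) ≤ ∑ i, w i * Complex.normSq (x i) := by
    have := Finset.single_le_sum (f := fun i => w i * Complex.normSq (x i))
      (fun i _ => mul_nonneg (hw i) (Complex.normSq_nonneg _)) (Finset.mem_univ o)
    exact this
  nlinarith [mul_le_mul_of_nonneg_left h3 hz.le, mul_le_mul_of_nonneg_left h4 (neg_nonneg.2 hv)]

theorem phi_im_nonneg {A : Matrix n n ℝ} (hA : A.IsSymm) {w : n → ℝ} (hw : ∀ i, 0 ≤ w i) (o : n)
    {z v : ℂ} (hz : 0 < z.im) (hv : v.im ≤ 0) : 0 ≤ (phi A w o z v).im := by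
  refine le_trans (mul_nonneg ?_ (Complex.normSq_nonneg _)) (phi_ineq hA hw o hz hv)
  nlinarith [hw o, mul_nonneg (neg_nonneg.2 hv) (hw o)]

theorem phi_im_le {A : Matrix n n ℝ} (hA : A.IsSymm) {w : n → ℝ} (hw : ∀ i, 0 ≤ w i) (o : n)
    {z v : ℂ} (hz : 0 < z.im) (hv : v.im ≤ 0) :
    (z.im - v.im * w o) * (phi A w o z v).im ≤ 1 := by
  have h1 := phi_ineq hA hw o hz hv
  have h0 := phi_im_nonneg hA hw o hz hv
  have hc : 0 < z.im - v.im * w o := by nlinarith [mul_nonneg (neg_nonneg.2 hv) (hw o)]
  set c := z.im - v.im * w o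
  set y := (phi A w o z v).im
  have h2 : y * y ≤ Complex.normSq (phi A w o z v) := Complex.im_sq_le_normSq _
  rcases eq_or_lt_of_le h0 with h | h
  · rw [← h]; norm_num
  · have h3 : c * (y * y) ≤ y := le_trans (mul_le_mul_of_nonneg_left h2 hc.le) h1
    have h4 : (c * y) * y ≤ 1 * y := by linarith
    exact le_of_mul_le_mul_right h4 h

theorem differentiableAt_det {M : ℂ → Matrix n n ℂ} {v : ℂ}
    (h : ∀ i j, DifferentiableAt ℂ (fun v => M v i j) v) :
    DifferentiableAt ℂ (fun v => (M v).det) v := by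
  simp only [Matrix.det_apply]
  apply DifferentiableAt.fun_sum
  intro σ _
  apply DifferentiableAt.const_smul
  apply DifferentiableAt.fun_finsetProd
  intro i _
  exact h _ _

omit [Fintype n] in
theorem differentiableAt_shiftM (A : Matrix n n ℝ) (w : n → ℝ) (z v : ℂ) (i j : n) :
    DifferentiableAt ℂ (fun v => shiftM A w z v i j) v := by
  simp only [shiftM, Matrix.sub_apply, Matrix.add_apply, Matrix.smul_apply, smul_eq_mul]
  fun_prop

theorem differentiableAt_phi {A : Matrix n n ℝ} (hA : A.IsSymm) {w : n → ℝ} (hw : ∀ i, 0 ≤ w i)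
    (o : n) {z v : ℂ} (hz : 0 < z.im) (hv : v.im ≤ 0) :
    DifferentiableAt ℂ (phi A w o z) v := by
  have hdet := det_ne_zero hA hw hz hv
  have h1 : phi A w o z = fun v => ((shiftM A w z v).det)⁻¹ *
      ((shiftM A w z v).updateRow o (Pi.single o 1)).det := by
    funext v
    rw [phi, Matrix.inv_def, Matrix.smul_apply, Ring.inverse_eq_inv', Matrix.adjugate_apply,
      smul_eq_mul]
  rw [h1]
  apply DifferentiableAt.fun_mul
  · apply DifferentiableAt.fun_inv
    · exact differentiableAt_det (fun i j => differentiableAt_shiftM A w z v i j)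
    · exact hdet
  · apply differentiableAt_det
    intro i j
    by_cases hi : i = o
    · subst hi
      simp only [Matrix.updateRow_self]
      exact differentiableAt_const _
    · simp only [Matrix.updateRow_ne hi]
      exact differentiableAt_shiftM A w z v i j

/-- Moebius map from the unit disc to the lower half plane -/
noncomputable def mob (u : ℂ) : ℂ := Complex.I * ((1 + u) / (u - 1))

theorem mob_im (u : ℂ) : (mob u).im = (Complex.normSq u - 1) / Complex.normSq (u - 1) := by
  rw [mob, Complex.I_mul_im, Complex.div_re]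
  simp only [Complex.normSq_apply, Complex.add_re, Complex.add_im, Complex.sub_re, Complex.sub_im,
    Complex.one_re, Complex.one_im]
  ring

theorem mob_im_nonpos {u : ℂ} (hu : ‖u‖ ≤ 1) : (mob u).im ≤ 0 := by
  rw [mob_im]
  apply div_nonpos_of_nonpos_of_nonneg _ (Complex.normSq_nonneg _)
  rw [Complex.normSq_eq_norm_sq]
  nlinarith [norm_nonneg u]

theorem differentiableAt_comp_mob {A : Matrix n n ℝ} (hA : A.IsSymm) {w : n → ℝ}
    (hw : ∀ i, 0 ≤ w i) (o : n) {z : ℂ} (hz : 0 < z.im) {u : ℂ} (hu : ‖u‖ ≤ 1) (hu1 : u ≠ 1) :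
    DifferentiableAt ℂ (fun u => phi A w o z (mob u)) u := by
  have h1 := differentiableAt_phi hA hw o hz (mob_im_nonpos hu)
  have h2 : DifferentiableAt ℂ mob u := by
    unfold mob
    apply DifferentiableAt.const_mul
    apply DifferentiableAt.fun_div
    · fun_prop
    · fun_prop
    · exact sub_ne_zero.2 hu1
  exact DifferentiableAt.comp u h1 h2

theorem mob_zero : mob 0 = -Complex.I := by
  simp [mob]

theorem average_le {A : Matrix n n ℝ} (hA : A.IsSymm) {w : n → ℝ} (hw : ∀ i, 0 ≤ w i) (o : n)
    {z : ℂ} (hz : 0 < z.im) (hwo : 0 < w o) {r : ℝ} (hr0 : 0 < r) (hr1 : r < 1) :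
    ∫ θ in (0:ℝ)..(2 * Real.pi), (phi A w o z (mob (circleMap 0 r θ))).im ≤ 2 * Real.pi / w o := by
  have hdiff : DiffContOnCl ℂ (fun u => phi A w o z (mob u)) (Metric.ball 0 |r|) := by
    apply DifferentiableOn.diffContOnCl
    intro u hu
    have hu' : ‖u‖ ≤ r := by
      have := Metric.closure_ball_subset_closedBall hu
      rwa [Metric.mem_closedBall, dist_zero_right, abs_of_pos hr0] at this
    apply (differentiableAt_comp_mob hA hw o hz (hu'.trans hr1.le) _).differentiableWithinAt
    rintro rfl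
    rw [norm_one] at hu'
    linarith
  have h1 := hdiff.circleAverage
  have hcont : ContinuousOn (fun u => phi A w o z (mob u)) (Metric.sphere 0 |r|) := by
    intro u hu
    have hu' : ‖u‖ = r := by
      rwa [mem_sphere_zero_iff_norm, abs_of_pos hr0] at hu
    apply (differentiableAt_comp_mob hA hw o hz (by linarith) _).continuousAt.continuousWithinAt
    rintro rfl
    rw [norm_one] at hu'
    linarith
  have hint : CircleIntegrable (fun u => phi A w o z (mob u)) 0 r :=
    hcont.circleIntegrable'
  have h2 : Real.circleAverage (fun u => (phi A w o z (mob u)).im) 0 r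
      = (phi A w o z (mob 0)).im := by
    have := Complex.imCLM.circleAverage_comp_comm hint
    rw [h1] at this
    simpa [Function.comp_def] using this
  have h3 : (phi A w o z (mob 0)).im ≤ 1 / w o := by
    have h := phi_im_le hA hw o hz (v := -Complex.I) (by simp)
    have h0 := phi_im_nonneg hA hw o hz (v := -Complex.I) (by simp)
    rw [mob_zero]
    simp only [Complex.neg_im, Complex.I_im, neg_mul, one_mul, sub_neg_eq_add] at h
    rw [le_div_iff₀ hwo]
    nlinarith
  rw [Real.circleAverage, smul_eq_mul] at h2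
  have hpi : 0 < 2 * Real.pi := by positivity
  have h4 : ∫ θ in (0:ℝ)..(2 * Real.pi), (phi A w o z (mob (circleMap 0 r θ))).im
      = 2 * Real.pi * (phi A w o z (mob 0)).im := by
    rw [← h2]
    field_simp
  rw [h4]
  calc 2 * Real.pi * (phi A w o z (mob 0)).im ≤ 2 * Real.pi * (1 / w o) :=
        mul_le_mul_of_nonneg_left h3 hpi.le
    _ = _ := by ring

theorem circleMap_arctan (v : ℝ) :
    circleMap 0 1 (Real.pi - 2 * Real.arctan v) = (Complex.I * v - 1) / (Complex.I * v + 1) := by
  have hne : (Complex.I * v + 1) ≠ 0 := by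
    intro h
    have := congrArg Complex.re h
    simp at this
  have hs : 0 < Real.sqrt (1 + v^2) := by positivity
  have h1 : Complex.exp (Complex.I * (Real.arctan v)) = (1 + Complex.I * v) / Real.sqrt (1 + v^2) := by
    rw [mul_comm, Complex.exp_mul_I, ← Complex.ofReal_cos, ← Complex.ofReal_sin, Real.cos_arctan,
      Real.sin_arctan]
    push_cast
    field_simp
  have h2 : Complex.exp (Complex.I * (Real.arctan v)) ^ 2 *
      circleMap 0 1 (Real.pi - 2 * Real.arctan v) = -1 := by
    rw [circleMap_zero, Complex.ofReal_one, one_mul, ← Complex.exp_nat_mul, ← Complex.exp_add]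
    have : ((2:ℕ):ℂ) * (Complex.I * (Real.arctan v)) + ((Real.pi - 2 * Real.arctan v : ℝ) : ℂ) * Complex.I
        = Real.pi * Complex.I := by
      push_cast; ring
    rw [this, Complex.exp_pi_mul_I]
  have h3 : ((Real.sqrt (1 + v^2) : ℝ) : ℂ)^2 = 1 + (v:ℂ)^2 := by
    rw [← Complex.ofReal_pow, Real.sq_sqrt (by positivity)]
    push_cast; ring
  have hs' : ((Real.sqrt (1 + v^2) : ℝ) : ℂ) ≠ 0 := by
    exact_mod_cast hs.ne'
  rw [h1, div_pow, h3] at h2
  have hs2 : (1 + (v:ℂ)^2) ≠ 0 := by
    rw [← h3]; exact pow_ne_zero 2 hs'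
  have h4 : (1 + (v:ℂ)^2) = (1 + Complex.I * v) * (1 - Complex.I * v) := by
    ring_nf
    rw [Complex.I_sq]
    ring
  rw [eq_div_iff hne]
  have h5 : (1 + Complex.I * v) ≠ 0 := by rw [add_comm]; exact hne
  have h6 : (1 + Complex.I * v) ^ 2 * circleMap 0 1 (Real.pi - 2 * Real.arctan v)
      = - (1 + (v:ℂ)^2) := by
    have h2' := congrArg (fun t => t * (1 + (v:ℂ)^2)) h2
    field_simp at h2'
    linear_combination h2'
  rw [h4] at h6
  have h7 : (1 + Complex.I * v) * ((1 + Complex.I * v) * circleMap 0 1 (Real.pi - 2 * Real.arctan v))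
      = (1 + Complex.I * v) * (- (1 - Complex.I * v)) := by
    linear_combination h6
  have h8 := mul_left_cancel₀ h5 h7
  linear_combination h8

theorem mob_circleMap_arctan (v : ℝ) : mob (circleMap 0 1 (Real.pi - 2 * Real.arctan v)) = v := by
  rw [circleMap_arctan, mob]
  have hne : (Complex.I * v + 1) ≠ 0 := by
    intro h
    have := congrArg Complex.re h
    simp at this
  have h1 : (Complex.I * v - 1) / (Complex.I * v + 1) - 1 = -2 / (Complex.I * v + 1) := by
    field_simp
    ring
  have h2 : 1 + (Complex.I * v - 1) / (Complex.I * v + 1) = 2 * (Complex.I * v) / (Complex.I * v + 1) := by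
    field_simp
    ring
  rw [h1, h2, div_div_div_cancel_right₀ hne]
  have : Complex.I * (2 * (Complex.I * v) / -2) = -(Complex.I * Complex.I) * v := by ring
  rw [this, Complex.I_mul_I]
  ring

theorem circleMap_ne_one {θ : ℝ} (h0 : 0 < θ) (h1 : θ < 2 * Real.pi) : circleMap 0 1 θ ≠ 1 := by
  rw [circleMap_zero, Complex.ofReal_one, one_mul]
  intro h
  rw [Complex.exp_eq_one_iff] at h
  obtain ⟨k, hk⟩ := h
  have h2 : (θ : ℂ) = k * (2 * Real.pi) := by
    have h3 : (θ : ℂ) * Complex.I = (k * (2 * Real.pi)) * Complex.I := by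
      rw [hk]; ring
    exact mul_right_cancel₀ Complex.I_ne_zero h3
  have h3 : θ = k * (2 * Real.pi) := by exact_mod_cast h2
  have hpi := Real.pi_pos
  rw [h3] at h0 h1
  have h4 : (0:ℝ) < k := by
    by_contra hk0
    rw [not_lt] at hk0
    nlinarith
  have h5 : (k:ℝ) < 1 := by
    by_contra hk0
    rw [not_lt] at hk0
    nlinarith
  have h6 : (0:ℤ) < k := by exact_mod_cast h4
  have h7 : k < (1:ℤ) := by exact_mod_cast h5
  omega

theorem norm_circleMap_le {r θ : ℝ} (hr0 : 0 ≤ r) (hr1 : r ≤ 1) : ‖circleMap 0 r θ‖ ≤ 1 := by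
  rw [norm_circleMap_zero, abs_of_nonneg hr0]
  exact hr1

theorem arc_le {A : Matrix n n ℝ} (hA : A.IsSymm) {w : n → ℝ} (hw : ∀ i, 0 ≤ w i) (o : n)
    {z : ℂ} (hz : 0 < z.im) (hwo : 0 < w o) {a b : ℝ} (ha : 0 < a) (hab : a ≤ b)
    (hb : b < 2 * Real.pi) :
    ∫ θ in a..b, (phi A w o z (mob (circleMap 0 1 θ))).im ≤ 2 * Real.pi / w o := by
  set G : ℝ → ℝ → ℝ := fun r θ => (phi A w o z (mob (circleMap 0 r θ))).im with hG
  have hGcont : ∀ r θ, 0 ≤ r → r < 1 → ContinuousAt (fun θ => G r θ) θ := by
    intro r θ hr0 hr1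
    have h1 := (differentiableAt_comp_mob hA hw o hz (norm_circleMap_le (θ := θ) hr0 hr1.le)
      (by
        intro h
        have h2 := norm_circleMap_zero r θ
        rw [h, norm_one, abs_of_nonneg hr0] at h2
        linarith)).continuousAt
    have h2 : ContinuousAt (fun θ => circleMap 0 r θ) θ := (continuous_circleMap 0 r).continuousAt
    exact Complex.continuous_im.continuousAt.comp (ContinuousAt.comp (f := fun θ => circleMap 0 r θ) h1 h2)
  have hpos : ∀ r θ, 0 ≤ r → r ≤ 1 → 0 ≤ G r θ := fun r θ hr0 hr1 =>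
    phi_im_nonneg hA hw o hz (mob_im_nonpos (norm_circleMap_le hr0 hr1))
  have hle : ∀ r θ, 0 ≤ r → r ≤ 1 → G r θ ≤ 1 / z.im := by
    intro r θ hr0 hr1
    have hv := mob_im_nonpos (norm_circleMap_le (θ := θ) hr0 hr1)
    have h := phi_im_le hA hw o hz hv
    have h0 := hpos r θ hr0 hr1
    rw [le_div_iff₀ hz]
    have h2 : 0 ≤ (- (mob (circleMap 0 r θ)).im) * w o := mul_nonneg (by linarith) (hw o)
    have h3 := mul_nonneg h2 h0
    simp only [hG] at h3 ⊢
    nlinarith
  have hsmall : ∀ r, 0 < r → r < 1 → ∫ θ in a..b, G r θ ≤ 2 * Real.pi / w o := by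
    intro r hr0 hr1
    refine le_trans ?_ (average_le hA hw o hz hwo hr0 hr1)
    apply intervalIntegral.integral_mono_interval ha.le hab hb.le
    · exact Filter.Eventually.of_forall (fun θ => hpos r θ hr0.le hr1.le)
    · apply Continuous.intervalIntegrable
      exact continuous_iff_continuousAt.2 (fun θ => hGcont r θ hr0.le hr1)
  have hlim : Filter.Tendsto (fun r => ∫ θ in a..b, G r θ) (nhdsWithin 1 (Set.Iio 1))
      (nhds (∫ θ in a..b, G 1 θ)) := by
    apply intervalIntegral.tendsto_integral_filter_of_dominated_convergence (fun _ => 1 / z.im)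
    · have : Set.Ioo (0:ℝ) 1 ∈ nhdsWithin (1:ℝ) (Set.Iio 1) := Ioo_mem_nhdsLT (by norm_num)
      filter_upwards [this] with r hr
      exact (continuous_iff_continuousAt.2 (fun θ => hGcont r θ hr.1.le hr.2)).aestronglyMeasurable
    · have : Set.Ioo (0:ℝ) 1 ∈ nhdsWithin (1:ℝ) (Set.Iio 1) := Ioo_mem_nhdsLT (by norm_num)
      filter_upwards [this] with r hr
      apply Filter.Eventually.of_forall
      intro θ _
      rw [Real.norm_eq_abs, abs_of_nonneg (hpos r θ hr.1.le hr.2.le)]
      exact hle r θ hr.1.le hr.2.le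
    · exact intervalIntegrable_const
    · apply Filter.Eventually.of_forall
      intro θ hθ
      rw [Set.uIoc_of_le hab] at hθ
      have h1 := (differentiableAt_comp_mob hA hw o hz (norm_circleMap_le (θ := θ) zero_le_one le_rfl)
        (circleMap_ne_one (lt_trans ha hθ.1) (lt_of_le_of_lt hθ.2 hb))).continuousAt
      have h2 : ContinuousAt (fun r : ℝ => circleMap 0 r θ) 1 := by
        simp only [circleMap_zero]
        fun_prop
      have h3 : ContinuousAt (fun r : ℝ => G r θ) 1 :=
        Complex.continuous_im.continuousAt.comp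
          (ContinuousAt.comp (f := fun r : ℝ => circleMap 0 r θ) h1 h2)
      exact h3.tendsto.mono_left nhdsWithin_le_nhds
  apply le_of_tendsto hlim
  have : Set.Ioo (0:ℝ) 1 ∈ nhdsWithin (1:ℝ) (Set.Iio 1) := Ioo_mem_nhdsLT (by norm_num)
  filter_upwards [this] with r hr
  exact hsmall r hr.1 hr.2

/-- **Averaging over the coupling**: the integral over `[-L, L]` of the imaginary part of a diagonal
resolvent entry is bounded uniformly in the matrix and in the energy. -/
theorem spectral_averaging {A : Matrix n n ℝ} (hA : A.IsSymm) {w : n → ℝ} (hw : ∀ i, 0 ≤ w i) (o : n)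
    {z : ℂ} (hz : 0 < z.im) (hwo : 0 < w o) {L : ℝ} (hL : 0 ≤ L) :
    ∫ v in (-L)..L, (phi A w o z v).im ≤ Real.pi * (1 + L^2) / w o := by
  set f : ℝ → ℝ := fun v => Real.pi - 2 * Real.arctan v with hf
  set g : ℝ → ℝ := fun v => - (2 * (1 / (1 + v^2))) with hg
  set G : ℝ → ℝ := fun θ => (phi A w o z (mob (circleMap 0 1 θ))).im with hG
  have hfrange : ∀ v, 0 < f v ∧ f v < 2 * Real.pi := by
    intro v
    have h1 := Real.arctan_lt_pi_div_two v
    have h2 := Real.neg_pi_div_two_lt_arctan v
    simp only [hf]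
    constructor <;> linarith
  have hGc : ∀ θ, 0 < θ → θ < 2 * Real.pi → ContinuousAt G θ := by
    intro θ h0 h1
    have h1 := (differentiableAt_comp_mob hA hw o hz (norm_circleMap_le (θ := θ) zero_le_one le_rfl)
      (circleMap_ne_one h0 h1)).continuousAt
    have h2 : ContinuousAt (fun θ => circleMap 0 1 θ) θ := (continuous_circleMap 0 1).continuousAt
    exact Complex.continuous_im.continuousAt.comp (ContinuousAt.comp (f := fun θ => circleMap 0 1 θ) h1 h2)
  have hGf : ∀ v, G (f v) = (phi A w o z v).im := by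
    intro v
    simp only [hG, hf, mob_circleMap_arctan]
  have hpos : ∀ v : ℝ, 0 ≤ (phi A w o z v).im := fun v => phi_im_nonneg hA hw o hz (by simp)
  have hsub : ∫ v in (-L)..L, (G ∘ f) v * g v = ∫ θ in (f (-L))..(f L), G θ := by
    apply intervalIntegral.integral_comp_mul_deriv''' (f := f) (f' := g) (g := G)
    · apply Continuous.continuousOn
      simp only [hf]
      fun_prop
    · intro v _
      have : HasDerivAt f (g v) v := by
        simp only [hf, hg]
        exact ((Real.hasDerivAt_arctan v).const_mul 2).const_sub Real.pi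
      exact this.hasDerivWithinAt
    · intro θ hθ
      obtain ⟨v, _, rfl⟩ := hθ
      exact (hGc _ (hfrange v).1 (hfrange v).2).continuousWithinAt
    · apply ContinuousOn.integrableOn_compact
      · exact (isCompact_uIcc).image (by simp only [hf]; fun_prop)
      · intro θ hθ
        obtain ⟨v, _, rfl⟩ := hθ
        exact (hGc _ (hfrange v).1 (hfrange v).2).continuousWithinAt
    · apply ContinuousOn.integrableOn_compact isCompact_uIcc
      apply Continuous.continuousOn
      apply Continuous.mul
      · rw [continuous_iff_continuousAt]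
        intro v
        apply ContinuousAt.comp (hGc _ (hfrange v).1 (hfrange v).2)
        simp only [hf]
        fun_prop
      · simp only [hg]
        apply Continuous.neg
        apply Continuous.mul continuous_const
        apply Continuous.div continuous_const (by fun_prop)
        intro v
        positivity
  have hanti : f L ≤ f (-L) := by
    simp only [hf]
    have := Real.arctan_strictMono.monotone (show -L ≤ L by linarith)
    linarith
  have harc := arc_le hA hw o hz hwo (hfrange L).1 hanti (hfrange (-L)).2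
  rw [intervalIntegral.integral_symm (f L) (f (-L))] at hsub
  have hphic : Continuous (fun v : ℝ => (phi A w o z v).im) := by
    rw [continuous_iff_continuousAt]
    intro v
    have h1 := (differentiableAt_phi hA hw o hz (v := (v:ℂ)) (by simp)).continuousAt
    exact Complex.continuous_im.continuousAt.comp
      (ContinuousAt.comp (f := fun v : ℝ => (v:ℂ)) h1 Complex.continuous_ofReal.continuousAt)
  have hcmp : ∫ v in (-L)..L, (2 / (1 + L^2)) * (phi A w o z v).im
      ≤ ∫ v in (-L)..L, - ((G ∘ f) v * g v) := by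
    apply intervalIntegral.integral_mono_on (by linarith)
    · exact (hphic.const_mul _).intervalIntegrable _ _
    · apply Continuous.intervalIntegrable
      have : (fun v => - ((G ∘ f) v * g v)) = fun v : ℝ => (phi A w o z v).im * (2 * (1 / (1 + v^2))) := by
        funext v
        simp only [Function.comp, hGf, hg]
        ring
      rw [this]
      apply hphic.mul
      apply Continuous.mul continuous_const
      apply Continuous.div continuous_const (by fun_prop)
      intro v
      positivity
    · intro v hv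
      simp only [Function.comp, hGf, hg]
      have h1 : 1 + v^2 ≤ 1 + L^2 := by nlinarith [hv.1, hv.2]
      have h2 : 2 / (1 + L^2) ≤ 2 / (1 + v^2) := by
        apply div_le_div_of_nonneg_left (by norm_num) (by positivity) h1
      have h3 := mul_le_mul_of_nonneg_right h2 (hpos v)
      calc 2 / (1 + L^2) * (phi A w o z v).im ≤ 2 / (1 + v^2) * (phi A w o z v).im := h3
        _ = _ := by ring
  rw [intervalIntegral.integral_const_mul, intervalIntegral.integral_neg, hsub, neg_neg] at hcmp
  have hfin : 2 / (1 + L^2) * ∫ v in (-L)..L, (phi A w o z v).im ≤ 2 * Real.pi / w o :=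
    le_trans hcmp harc
  rw [div_mul_eq_mul_div, div_le_iff₀ (by positivity)] at hfin
  rw [le_div_iff₀ hwo]
  have h9 : 2 * Real.pi / w o * (1 + L^2) * w o = 2 * Real.pi * (1 + L^2) := by
    field_simp
  nlinarith [mul_le_mul_of_nonneg_right hfin hwo.le]

end Pool.W_MP_b5ab1b_al
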